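import Mathlib
import Pool.Agent.W277.UB.Pl

/-!
# Divided-difference cofactors
-/

namespace Pool.Agent.W277.UB

open Finset Polynomial

variable {k K : Type*} [Field k] [Field K] [Algebra k K]

/-- The triangular number `0 + 1 + ... + (n-1)`. -/
def tri (n : ℕ) : ℤ := ∑ j : Fin n, (j : ℤ)

lemma two_tri (n : ℕ) : 2 * tri n = n * (n - 1) := by
  unfold tri
  induction n with
  | zero => simp
  | succ n ih =>
    rw [Fin.sum_univ_castSucc, mul_add]
    simp only [Fin.val_castSucc, Fin.val_last]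
    rw [ih]
    push_cast
    ring

lemma tri_nonneg (n : ℕ) : 0 ≤ tri n := Finset.sum_nonneg fun j _ => by positivity

lemma tri_succ (n : ℕ) : tri (n + 1) = tri n + n := by
  unfold tri
  rw [Fin.sum_univ_castSucc]
  simp

/-- The cofactors. -/
noncomputable def cof {n : ℕ} (z : Fin (n + 1) → K) (i : Fin (n + 1)) : K :=
  (-1) ^ (i : ℕ) * (Matrix.vandermonde (z ∘ i.succAbove)).det

lemma cof_ne_zero {n : ℕ} {z : Fin (n + 1) → K} (hz : Function.Injective z) (i : Fin (n + 1)) :
    cof z i ≠ 0 := by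
  unfold cof
  refine mul_ne_zero (pow_ne_zero _ (by simp)) ?_
  rw [Matrix.det_vandermonde_ne_zero_iff]
  exact hz.comp Fin.succAbove_right_injective

/-- The matrix with first column `y` and Vandermonde columns. -/
def ddM {n : ℕ} (z y : Fin (n + 1) → K) : Matrix (Fin (n + 1)) (Fin (n + 1)) K :=
  Matrix.of fun i j => Fin.cases (y i) (fun j : Fin n => z i ^ (j : ℕ)) j

lemma det_ddM {n : ℕ} (z y : Fin (n + 1) → K) : (ddM z y).det = ∑ i, cof z i * y i := by
  rw [Matrix.det_succ_column_zero]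
  refine Finset.sum_congr rfl fun i _ => ?_
  have h1 : (ddM z y).submatrix i.succAbove Fin.succ = Matrix.vandermonde (z ∘ i.succAbove) := by
    ext a b
    simp [ddM, Matrix.vandermonde_apply]
  rw [h1]
  unfold cof
  simp only [ddM, Matrix.of_apply, Fin.cases_zero]
  ring

lemma dd_pow {n : ℕ} (z : Fin (n + 1) → K) (j : ℕ) (hj : j < n) :
    ∑ i, cof z i * z i ^ j = 0 := by
  rw [← det_ddM z (fun i => z i ^ j)]
  apply Matrix.det_zero_of_column_eq (i := 0) (j := Fin.succ ⟨j, hj⟩)
  · exact (Fin.succ_ne_zero _).symm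
  · intro i
    simp [ddM]

lemma dd_poly {n : ℕ} (z : Fin (n + 1) → K) (g : K[X]) (hg : g.natDegree < n) :
    ∑ i, cof z i * g.eval (z i) = 0 := by
  simp only [eval_eq_sum_range' hg, Finset.mul_sum]
  rw [Finset.sum_comm]
  refine Finset.sum_eq_zero fun j hj => ?_
  have h := dd_pow z j (Finset.mem_range.mp hj)
  have h2 : ∑ i, cof z i * (g.coeff j * z i ^ j) = g.coeff j * ∑ i, cof z i * z i ^ j := by
    rw [Finset.mul_sum]
    exact Finset.sum_congr rfl fun i _ => by ring
  rw [h2, h, mul_zero]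

variable {Q : PlaceData k K}

lemma G_cof_sign {v : Q.Pl} {m : ℤ} {x : K} (j : ℕ) (h : Q.G v m x) :
    Q.G v m ((-1) ^ j * x) := by
  rcases neg_one_pow_eq_or K j with h1 | h1
  · rw [h1, one_mul]
    exact h
  · rw [h1]
    simpa using PlaceData.G_neg h

/-- Orders of Vandermonde determinants. -/
lemma G_vander {v : Q.Pl} {m : ℤ} {n : ℕ} (z : Fin n → K)
    (h : ∀ i, Q.pole v (z i) ≤ m) : Q.G v (-(m * tri n)) (Matrix.vandermonde z).det := by
  have h1 := PlaceData.G_det (Q := Q) (v := v) (Matrix.vandermonde z) (fun _ => 0)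
    (fun j => -(m * j)) ?_
  · refine PlaceData.G_mono h1 (le_of_eq ?_)
    simp only [Finset.sum_const_zero, zero_add, Finset.sum_neg_distrib, tri, Finset.mul_sum]
  · intro i j
    rw [Matrix.vandermonde_apply]
    have h2 := PlaceData.G_pow (PlaceData.G_of_pole_le (h i)) (j : ℕ)
    refine PlaceData.G_mono h2 (le_of_eq ?_)
    ring

/-- Orders of Vandermonde determinants with a distinguished point with a large pole. -/
lemma G_vander' {v : Q.Pl} {m q : ℤ} {n : ℕ} (z : Fin (n + 1) → K) (a : Fin (n + 1))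
    (h : ∀ i, i ≠ a → Q.pole v (z i) ≤ m) (ha : Q.pole v (z a) ≤ q) (hmq : m ≤ q) :
    Q.G v (-(n * q) - m * tri n) (Matrix.vandermonde z).det := by
  have h1 := PlaceData.G_det (Q := Q) (v := v) (Matrix.vandermonde z)
    (fun i => if i = a then -((q - m) * n) else 0)
    (fun j => -(m * j)) ?_
  · refine PlaceData.G_mono h1 (le_of_eq ?_)
    simp only [Finset.sum_ite_eq', Finset.mem_univ, if_true, Finset.sum_neg_distrib]
    rw [← Finset.mul_sum]
    have h3 : ∑ j : Fin (n + 1), (j : ℤ) = tri (n + 1) := rfl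
    rw [h3, tri_succ]
    ring
  · intro i j
    rw [Matrix.vandermonde_apply]
    by_cases hi : i = a
    · subst hi
      simp only [if_true]
      have h2 := PlaceData.G_pow (PlaceData.G_of_pole_le ha) (j : ℕ)
      refine PlaceData.G_mono h2 ?_
      have hj : ((j : ℕ) : ℤ) ≤ n := by
        have := j.is_lt
        omega
      nlinarith
    · simp only [if_neg hi]
      have h2 := PlaceData.G_pow (PlaceData.G_of_pole_le (h i hi)) (j : ℕ)
      refine PlaceData.G_mono h2 (le_of_eq ?_)
      ring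

lemma G_cof {v : Q.Pl} {m : ℤ} {n : ℕ} (z : Fin (n + 1) → K)
    (h : ∀ i, Q.pole v (z i) ≤ m) (i : Fin (n + 1)) : Q.G v (-(m * tri n)) (cof z i) :=
  G_cof_sign _ (G_vander _ fun j => h _)

end Pool.Agent.W277.UB
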