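import Mathlib

/-!
# Wronskians
-/

namespace Pool.Agent.W277.UB

open Finset

variable {k K : Type*} [Field k] [Field K] [Algebra k K]

/-- The Wronskian matrix. -/
def wrM (D : Derivation k K K) {r : ℕ} (x : Fin r → K) : Matrix (Fin r) (Fin r) K :=
  Matrix.of fun j i => (D^[(j : ℕ)]) (x i)

/-- Elements linearly independent over the constants of a derivation are differentially
independent. -/
lemma wr_indep (D : Derivation k K K) (hD : ∀ x, D x = 0 → ∃ c : k, algebraMap k K c = x)
    (r : ℕ) : ∀ (x : Fin r → K), LinearIndependent k x → ∀ a : Fin r → K,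
      (∀ j : ℕ, j < r → ∑ i, a i * (D^[j]) (x i) = 0) → a = 0 := by
  induction r with
  | zero =>
    intro x _ a _
    exact Subsingleton.elim _ _
  | succ r ih =>
    intro x hx a ha
    have hx' : LinearIndependent k (fun i : Fin r => x i.castSucc) :=
      hx.comp _ (Fin.castSucc_injective r)
    by_cases hl : a (Fin.last r) = 0
    · have h1 : (fun i : Fin r => a i.castSucc) = 0 := by
        apply ih _ hx'
        intro j hj
        have h2 := ha j (by omega)
        rw [Fin.sum_univ_castSucc, hl, zero_mul, add_zero] at h2
        exact h2
      funext i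
      refine Fin.lastCases ?_ (fun i => ?_) i
      · exact hl
      · exact congrFun h1 i
    · exfalso
      set b : Fin (r + 1) → K := fun i => a i / a (Fin.last r) with hb
      have hbl : b (Fin.last r) = 1 := div_self hl
      have hbs : ∀ j : ℕ, j < r + 1 → ∑ i, b i * (D^[j]) (x i) = 0 := by
        intro j hj
        have h2 := ha j hj
        have h3 : ∑ i, b i * (D^[j]) (x i) = (∑ i, a i * (D^[j]) (x i)) / a (Fin.last r) := by
          rw [Finset.sum_div]
          refine Finset.sum_congr rfl fun i _ => ?_
          simp only [hb]
          ring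
        rw [h3, h2, zero_div]
      have hDb : (fun i : Fin r => D (b i.castSucc)) = 0 := by
        apply ih _ hx'
        intro j hj
        have h2 := congrArg D (hbs j (by omega))
        rw [map_sum, map_zero] at h2
        simp only [Derivation.leibniz, smul_eq_mul] at h2
        rw [Finset.sum_add_distrib] at h2
        have h4 : ∑ i, b i * D ((D^[j]) (x i)) = 0 := by
          have h5 := hbs (j + 1) (by omega)
          rw [← h5]
          refine Finset.sum_congr rfl fun i _ => ?_
          rw [Function.iterate_succ_apply']
        rw [h4, zero_add, Fin.sum_univ_castSucc, hbl] at h2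
        simp only [Derivation.map_one_eq_zero, mul_zero, add_zero] at h2
        rw [← h2]
        refine Finset.sum_congr rfl fun i _ => ?_
        ring
      have hbc : ∀ i : Fin (r + 1), ∃ c : k, algebraMap k K c = b i := by
        intro i
        refine Fin.lastCases ?_ (fun i => ?_) i
        · exact ⟨1, by rw [hbl, map_one]⟩
        · exact hD _ (congrFun hDb i)
      choose c hc using hbc
      have h6 : ∑ i, c i • x i = 0 := by
        have h7 := hbs 0 (by omega)
        simp only [Function.iterate_zero, id] at h7
        rw [← h7]
        refine Finset.sum_congr rfl fun i _ => ?_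
        rw [Algebra.smul_def, hc]
      have h8 := (Fintype.linearIndependent_iff.mp hx) c h6 (Fin.last r)
      have h9 := hc (Fin.last r)
      rw [h8, map_zero, hbl] at h9
      exact zero_ne_one h9

/-- The Wronskian of linearly independent elements does not vanish. -/
lemma wr_ne_zero (D : Derivation k K K) (hD : ∀ x, D x = 0 → ∃ c : k, algebraMap k K c = x)
    {r : ℕ} (x : Fin r → K) (hx : LinearIndependent k x) : (wrM D x).det ≠ 0 := by
  intro h
  obtain ⟨a, ha0, ha⟩ := Matrix.exists_mulVec_eq_zero_iff.mpr h
  apply ha0
  apply wr_indep D hD r x hx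
  intro j hj
  have h1 := congrFun ha ⟨j, hj⟩
  simp only [Matrix.mulVec, dotProduct, wrM, Matrix.of_apply, Pi.zero_apply] at h1
  rw [← h1]
  refine Finset.sum_congr rfl fun i _ => ?_
  ring

lemma iter_D_smul (D : Derivation k K K) (j : ℕ) (c : k) (x : K) :
    (D^[j]) (c • x) = c • (D^[j]) x := by
  induction j with
  | zero => rfl
  | succ j ih => rw [Function.iterate_succ_apply', Function.iterate_succ_apply', ih, Derivation.map_smul]

lemma iter_D_sum (D : Derivation k K K) (j : ℕ) {ι : Type*} (s : Finset ι) (x : ι → K) :
    (D^[j]) (∑ i ∈ s, x i) = ∑ i ∈ s, (D^[j]) (x i) := by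
  induction j with
  | zero => rfl
  | succ j ih =>
    rw [Function.iterate_succ_apply', ih, map_sum]
    refine Finset.sum_congr rfl fun i _ => ?_
    rw [Function.iterate_succ_apply']

/-- Replacing one function by a linear combination multiplies the Wronskian by the
corresponding coefficient. -/
lemma wr_swap (D : Derivation k K K) {r : ℕ} (x : Fin r → K) (a : Fin r) (c : Fin r → k) :
    (wrM D (Function.update x a (∑ i, c i • x i))).det =
      algebraMap k K (c a) * (wrM D x).det := by
  have h1 := Matrix.det_updateCol_sum (wrM D x) a (fun i => algebraMap k K (c i))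
  rw [smul_eq_mul] at h1
  rw [← h1]
  congr 1
  ext j i
  rw [Matrix.updateCol_apply]
  simp only [wrM, Matrix.of_apply, Function.update_apply]
  split_ifs with h
  · rw [iter_D_sum]
    refine Finset.sum_congr rfl fun i _ => ?_
    rw [iter_D_smul, Algebra.smul_def, smul_eq_mul]
  · rfl

end Pool.Agent.W277.UB
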