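import Mathlib
import Pool.Agent.W277.UB.DD
import Pool.Agent.W277.UB.Wr

/-!
# Local estimates for Wronskians
-/

namespace Pool.Agent.W277.UB

open Finset Polynomial PlaceData

variable {k K : Type*} [Field k] [Field K] [Algebra k K]
variable {Q : PlaceData k K}

/-- Basic estimate. -/
lemma G_wr {v : Q.Pl} {r : ℕ} (y : Fin r → K) (γ : Fin r → ℤ) (h : ∀ a, Q.G v (γ a) (y a)) :
    Q.G v (∑ a, γ a - (1 + Q.loss v) * tri r) (wrM Q.D y).det := by
  have h1 := G_det (Q := Q) (v := v) (wrM Q.D y) (fun j => -((1 + Q.loss v) * j)) γ ?_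
  · refine G_mono h1 (le_of_eq ?_)
    rw [Finset.sum_neg_distrib, ← Finset.mul_sum]
    have h3 : ∑ j : Fin r, (j : ℤ) = tri r := rfl
    rw [h3]
    ring
  · intro i j
    have h2 := G_D (Q := Q) (v := v) (i : ℕ) (h j)
    refine G_mono h2 (le_of_eq ?_)
    ring

/-- Estimate at places where everything is integral. -/
lemma G_wr' {v : Q.Pl} {r d : ℕ} (hrd : r ≤ d + 1) (u c : Fin r → K) (hu : ∀ a, u a ≠ 0)
    (hu0 : ∀ a, 0 ≤ Q.ord v (u a)) (hc : ∀ a, Q.G v 0 (c a)) :
    Q.G v (((d : ℤ) - (r - 1)) * ∑ a, Q.ord v (u a) - Q.loss v * tri r)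
      (wrM Q.D (fun a => u a ^ d * c a)).det := by
  have h1 := G_det (Q := Q) (v := v) (wrM Q.D (fun a => u a ^ d * c a))
    (fun j => -(Q.loss v * j)) (fun a => ((d : ℤ) - (r - 1)) * Q.ord v (u a)) ?_
  · refine G_mono h1 (le_of_eq ?_)
    rw [Finset.sum_neg_distrib, ← Finset.mul_sum, ← Finset.mul_sum]
    have h3 : ∑ j : Fin r, (j : ℤ) = tri r := rfl
    rw [h3]
    ring
  · intro i a
    have hy : Q.G v (d * Q.ord v (u a)) (u a ^ d * c a) := by
      have := G_mul (G_pow (G_self (Q := Q) (v := v) (x := u a)) d) (hc a)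
      rwa [add_zero] at this
    by_cases h0 : Q.ord v (u a) = 0
    · rw [h0] at hy
      rw [mul_zero] at hy
      have h2 := G_D' (i : ℕ) hy
      refine G_mono h2 (le_of_eq ?_)
      rw [h0]
      ring
    · have h2 := G_D (i : ℕ) hy
      refine G_mono h2 ?_
      have h3 : 1 ≤ Q.ord v (u a) := by
        have := hu0 a
        omega
      have h4 : ((i : ℕ) : ℤ) ≤ r - 1 := by
        have := i.is_lt
        omega
      have h5 : ((r : ℤ) - 1) * 1 ≤ (r - 1) * Q.ord v (u a) := by
        apply mul_le_mul_of_nonneg_left h3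
        have := i.is_lt
        omega
      have h6 : 0 ≤ Q.loss v := Q.loss_nonneg v
      nlinarith

/-- The constant `B`. -/
def Bc (r : ℕ) (C : ℤ) : ℤ := r * C + 3 * tri r

/-- Combined estimate (for both kinds of places). -/
lemma G_wr_main {v : Q.Pl} {r d : ℕ} (hrd : r ≤ d + 1) (u c : Fin r → K) (hu : ∀ a, u a ≠ 0)
    {q C : ℤ} (hq : 0 ≤ q) (huq : ∀ a, Q.pole v (u a) ≤ q)
    (hc : ∀ a, Q.G v (-(C * q)) (c a)) :
    Q.G v (((d : ℤ) - (r - 1)) * ∑ a, Q.ord v (u a) - Bc r C * q - Q.loss v * tri r)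
      (wrM Q.D (fun a => u a ^ d * c a)).det := by
  rcases eq_or_lt_of_le hq with hq0 | hq0
  · subst hq0
    have hu0 : ∀ a, 0 ≤ Q.ord v (u a) := by
      intro a
      have h1 := huq a
      rw [pole_of_ne (hu a)] at h1
      have := le_max_right 0 (- Q.ord v (u a))
      linarith
    have h2 := G_wr' (Q := Q) (v := v) hrd u c hu hu0 (fun a => by simpa using hc a)
    refine G_mono h2 (le_of_eq ?_)
    ring
  · have h1 : ∀ a, Q.G v (d * Q.ord v (u a) - C * q) (u a ^ d * c a) := by
      intro a
      have := G_mul (G_pow (G_self (Q := Q) (v := v) (x := u a)) d) (hc a)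
      refine G_mono this (le_of_eq (by ring))
    have h2 := G_wr (Q := Q) (v := v) _ _ h1
    refine G_mono h2 ?_
    rw [Finset.sum_sub_distrib, ← Finset.mul_sum]
    simp only [Finset.sum_const, Finset.card_univ, Fintype.card_fin, nsmul_eq_mul]
    have h3 : -(r * q) ≤ ∑ a, Q.ord v (u a) := by
      have h4 : ∑ a : Fin r, (-q) ≤ ∑ a, Q.ord v (u a) := by
        refine Finset.sum_le_sum fun a _ => ?_
        have h5 := huq a
        rw [pole_of_ne (hu a)] at h5
        have := le_max_right 0 (- Q.ord v (u a))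
        linarith
      simp only [Finset.sum_const, Finset.card_univ, Fintype.card_fin, nsmul_eq_mul] at h4
      linarith
    have h6 := two_tri r
    have h7 := tri_nonneg r
    rcases Nat.eq_zero_or_pos r with hr | hr
    · subst hr
      simp [Bc, tri]
    · have h8 : (0 : ℤ) ≤ (r : ℤ) - 1 := by omega
      have h9 := mul_le_mul_of_nonneg_left h3 h8
      have h10 : tri r * 1 ≤ tri r * q := mul_le_mul_of_nonneg_left (by omega) h7
      unfold Bc
      nlinarith

/-- Estimate with a pole of large order. -/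
lemma G_wr_top {v : Q.Pl} {r d : ℕ} (hrd : r ≤ d + 1) (u c : Fin r → K) (hu : ∀ a, u a ≠ 0)
    {q C : ℤ} (hq : 0 ≤ q) (huq : ∀ a, Q.pole v (u a) ≤ q)
    (hc : ∀ a, Q.G v (-(C * q)) (c a)) (a : Fin r)
    (hδ : Q.G v (-((C + 1) * q)) (∑ i, u i ^ d * c i)) :
    Q.G v (((d : ℤ) - (r - 1)) * ∑ i, Q.ord v (u i) + d * Q.pole v (u a) - (Bc r C + 1) * q -
      Q.loss v * tri r) (wrM Q.D (fun i => u i ^ d * c i)).det := by
  rcases eq_or_lt_of_le (pole_nonneg v (u a)) with h0 | h0
  · have h1 := G_wr_main (Q := Q) (v := v) hrd u c hu hq huq hc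
    refine G_mono h1 ?_
    rw [← h0]
    linarith
  · have hq1 : 1 ≤ q := by
      have := huq a
      omega
    have hord : Q.pole v (u a) = - Q.ord v (u a) := by
      rw [pole_of_ne (hu a)] at h0 ⊢
      rcases max_choice 0 (- Q.ord v (u a)) with h | h
      · rw [h] at h0
        exact absurd h0 (lt_irrefl _)
      · exact h
    have hsw := wr_swap Q.D (fun i => u i ^ d * c i) a (fun _ => (1 : k))
    simp only [one_smul, map_one, one_mul] at hsw
    rw [← hsw]
    set δ := ∑ i, u i ^ d * c i with hδd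
    have h1 : ∀ i, Q.G v (if i = a then -((C + 1) * q) else d * Q.ord v (u i) - C * q)
        (Function.update (fun i => u i ^ d * c i) a δ i) := by
      intro i
      by_cases hi : i = a
      · subst hi
        simpa using hδ
      · simp only [if_neg hi, Function.update_of_ne hi]
        have := G_mul (G_pow (G_self (Q := Q) (v := v) (x := u i)) d) (hc i)
        refine G_mono this (le_of_eq (by ring))
    have h2 := G_wr (Q := Q) (v := v) _ _ h1
    refine G_mono h2 ?_
    have h3 : ∑ i, (if i = a then -((C + 1) * q) else d * Q.ord v (u i) - C * q) =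
        ∑ i, (d * Q.ord v (u i) - C * q) - (d * Q.ord v (u a) - C * q) - (C + 1) * q := by
      rw [← Finset.add_sum_erase _ _ (Finset.mem_univ a),
        ← Finset.add_sum_erase (s := Finset.univ) (fun i => (d * Q.ord v (u i) - C * q))
          (Finset.mem_univ a)]
      simp only [if_true]
      have h4 : ∑ i ∈ univ.erase a, (if i = a then -((C + 1) * q) else d * Q.ord v (u i) - C * q) =
          ∑ i ∈ univ.erase a, (d * Q.ord v (u i) - C * q) := by
        refine Finset.sum_congr rfl fun i hi => ?_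
        rw [if_neg (Finset.ne_of_mem_erase hi)]
      rw [h4]
      ring
    rw [h3, Finset.sum_sub_distrib, ← Finset.mul_sum]
    simp only [Finset.sum_const, Finset.card_univ, Fintype.card_fin, nsmul_eq_mul]
    have h5 : -(r * q) ≤ ∑ a, Q.ord v (u a) := by
      have h4 : ∑ a : Fin r, (-q) ≤ ∑ a, Q.ord v (u a) := by
        refine Finset.sum_le_sum fun a _ => ?_
        have h5 := huq a
        rw [pole_of_ne (hu a)] at h5
        have := le_max_right 0 (- Q.ord v (u a))
        linarith
      simp only [Finset.sum_const, Finset.card_univ, Fintype.card_fin, nsmul_eq_mul] at h4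
      linarith
    have h6 := two_tri r
    have h7 := tri_nonneg r
    have h8 : (0 : ℤ) ≤ (r : ℤ) - 1 := by
      have := a.is_lt
      omega
    have h9 := mul_le_mul_of_nonneg_left h5 h8
    have h10 : tri r * 1 ≤ tri r * q := mul_le_mul_of_nonneg_left (by omega) h7
    rw [hord]
    unfold Bc
    nlinarith

end Pool.Agent.W277.UB
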