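import Mathlib
import Pool.Agent.W277.UB.Loc

/-!
# Global estimates
-/

namespace Pool.Agent.W277.UB

open Finset Polynomial PlaceData

variable {k K : Type*} [Field k] [Field K] [Algebra k K]
variable (Q : PlaceData k K)

/-- The places that matter for a finite set `P`. -/
noncomputable def supp (P : Finset K) : Finset Q.Pl := by
  classical
  exact Q.lossS ∪ P.biUnion fun z => if h : z ≠ 0 then (Q.fin z h).toFinset else ∅

variable {Q}

lemma ord_of_notMem {P : Finset K} {v : Q.Pl} (hv : v ∉ supp Q P) {z : K} (hz : z ∈ P)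
    (hz0 : z ≠ 0) : Q.ord v z = 0 := by
  classical
  by_contra h
  apply hv
  unfold supp
  rw [mem_union]
  right
  rw [mem_biUnion]
  refine ⟨z, hz, ?_⟩
  rw [dif_pos hz0]
  simpa using h

lemma loss_of_notMem {P : Finset K} {v : Q.Pl} (hv : v ∉ supp Q P) : Q.loss v = 0 := by
  classical
  apply Q.loss_supp
  intro h
  apply hv
  unfold supp
  rw [mem_union]
  left
  exact h

lemma sum_loss (P : Finset K) : ∑ v ∈ supp Q P, Q.wt v * Q.loss v ≤ Q.lossT := by
  classical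
  have h : Q.lossS ⊆ supp Q P := by
    unfold supp
    exact subset_union_left
  rw [← Finset.sum_subset h]
  · exact Q.loss_sum
  · intro v _ hv
    rw [Q.loss_supp v hv, mul_zero]

lemma lossT_nonneg : 0 ≤ Q.lossT :=
  le_trans (Finset.sum_nonneg fun v _ => mul_nonneg (Q.wt_nonneg v) (Q.loss_nonneg v)) Q.loss_sum

variable (Q) in
/-- The largest pole order on `P`. -/
noncomputable def qq (P : Finset K) (v : Q.Pl) : ℤ := ((P.sup fun z => (Q.pole v z).toNat : ℕ) : ℤ)

lemma qq_nonneg (P : Finset K) (v : Q.Pl) : 0 ≤ qq Q P v := Int.natCast_nonneg _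

lemma pole_le_qq {P : Finset K} {z : K} (hz : z ∈ P) (v : Q.Pl) : Q.pole v z ≤ qq Q P v := by
  have h : (Q.pole v z).toNat ≤ P.sup fun z => (Q.pole v z).toNat :=
    Finset.le_sup (f := fun z => (Q.pole v z).toNat) hz
  unfold qq
  have h2 := pole_nonneg v z
  omega

lemma qq_of_notMem {P : Finset K} {v : Q.Pl} (hv : v ∉ supp Q P) : qq Q P v = 0 := by
  unfold qq
  norm_cast
  rw [← Nat.bot_eq_zero, Finset.sup_eq_bot_iff]
  intro z hz
  by_cases hz0 : z = 0
  · simp [hz0, pole_zero]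
  · rw [pole_of_ne hz0, ord_of_notMem hv hz hz0]
    simp

lemma exists_qq {P : Finset K} {v : Q.Pl} (hv : 0 < qq Q P v) :
    ∃ z ∈ P, z ≠ 0 ∧ Q.ord v z = - qq Q P v := by
  have hP : P.Nonempty := by
    rw [Finset.nonempty_iff_ne_empty]
    rintro rfl
    simp [qq] at hv
  obtain ⟨z, hz, hzq⟩ := Finset.exists_mem_eq_sup P hP (fun z => (Q.pole v z).toNat)
  have h1 : qq Q P v = Q.pole v z := by
    unfold qq
    rw [hzq]
    exact Int.toNat_of_nonneg (pole_nonneg v z)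
  have hz0 : z ≠ 0 := by
    rintro rfl
    rw [h1, pole_zero] at hv
    exact lt_irrefl _ hv
  refine ⟨z, hz, hz0, ?_⟩
  rw [h1] at hv ⊢
  rw [pole_of_ne hz0] at hv ⊢
  rcases max_choice 0 (- Q.ord v z) with h | h
  · rw [h] at hv
    exact absurd hv (lt_irrefl _)
  · rw [h]
    ring

variable (Q) in
/-- The total size of `P`. -/
noncomputable def HH (P : Finset K) : ℤ := ∑ v ∈ supp Q P, Q.wt v * qq Q P v

variable (Q) in
/-- The height of an element relative to the places of `P`. -/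
noncomputable def ht (P : Finset K) (z : K) : ℤ := ∑ v ∈ supp Q P, Q.wt v * Q.pole v z

lemma HH_nonneg (P : Finset K) : 0 ≤ HH Q P :=
  Finset.sum_nonneg fun v _ => mul_nonneg (Q.wt_nonneg v) (qq_nonneg P v)

lemma ht_nonneg (P : Finset K) (z : K) : 0 ≤ ht Q P z :=
  Finset.sum_nonneg fun v _ => mul_nonneg (Q.wt_nonneg v) (pole_nonneg v z)

lemma sum_le_zero {P : Finset K} {W : K} (hW : W ≠ 0) (b : Q.Pl → ℤ)
    (h1 : ∀ v ∈ supp Q P, Q.G v (b v) W) (h2 : ∀ v, v ∉ supp Q P → Q.G v 0 W) :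
    ∑ v ∈ supp Q P, Q.wt v * b v ≤ 0 := by
  refine le_trans ?_ (Q.prod_formula W hW (supp Q P) fun v hv => h2 v hv hW)
  exact Finset.sum_le_sum fun v hv => mul_le_mul_of_nonneg_left (h1 v hv hW) (Q.wt_nonneg v)

lemma sum_ord_unit {P : Finset K} {z : K} (hz : z ∈ P) (hz0 : z ≠ 0) :
    ∑ v ∈ supp Q P, Q.wt v * Q.ord v z = 0 := by
  apply le_antisymm
  · exact Q.prod_formula z hz0 _ fun v hv => le_of_eq (ord_of_notMem hv hz hz0).symm
  · have h := Q.prod_formula z⁻¹ (inv_ne_zero hz0) (supp Q P) fun v hv => by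
      rw [ord_inv hz0, ord_of_notMem hv hz hz0, neg_zero]
    simp only [ord_inv hz0, mul_neg, Finset.sum_neg_distrib] at h
    linarith

lemma sum_sum_ord {P : Finset K} {r : ℕ} {z : Fin r → K} (hz : ∀ i, z i ∈ P)
    (hz0 : ∀ i, z i ≠ 0) : ∑ v ∈ supp Q P, Q.wt v * ∑ i, Q.ord v (z i) = 0 := by
  simp only [Finset.mul_sum]
  rw [Finset.sum_comm]
  exact Finset.sum_eq_zero fun i _ => sum_ord_unit (hz i) (hz0 i)

lemma ht_ratio_zero {P : Finset K} {v : Q.Pl} (hv : v ∉ supp Q P) {z y : K} (hz : z ∈ P)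
    (hy : y ∈ P) : Q.pole v (z / y) = 0 := by
  by_cases h : z / y = 0
  · rw [h, pole_zero]
  · have hz0 : z ≠ 0 := by
      rintro rfl
      simp at h
    have hy0 : y ≠ 0 := by
      rintro rfl
      simp at h
    rw [pole_of_ne h, ord_div hz0 hy0, ord_of_notMem hv hz hz0, ord_of_notMem hv hy hy0]
    simp

/-- The setting: `f = X^d + (degree ≤ e)`, and `P` is a finite set stable under `f`. -/
structure Stab (e d : ℕ) (f : K[X]) (P : Finset K) : Prop where
  hf : (f - X ^ d).natDegree ≤ e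
  hP : ∀ z ∈ P, f.eval z ∈ P

lemma dd_f {e d : ℕ} {f : K[X]} (hf : (f - X ^ d).natDegree ≤ e) (z : Fin (e + 2) → K) :
    ∑ i, z i ^ d * cof z i = ∑ i, cof z i * f.eval (z i) := by
  have h := dd_poly z (f - X ^ d) (by omega)
  simp only [eval_sub, eval_pow, eval_X, mul_sub] at h
  rw [Finset.sum_sub_distrib, sub_eq_zero] at h
  rw [h]
  exact Finset.sum_congr rfl fun i _ => by ring

/-- (I): the independent case. -/
lemma caseI {e d : ℕ} {f : K[X]} {P : Finset K} (hS : Stab e d f P) (hed : e + 1 ≤ d)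
    (z : Fin (e + 2) → K) (hz : ∀ i, z i ∈ P) (hz0 : ∀ i, z i ≠ 0)
    (hx : LinearIndependent k (fun i => z i ^ d * cof z i)) (a : Fin (e + 2)) :
    d * ht Q P (z a) ≤ (Bc (e + 2) (tri (e + 1)) + 1) * HH Q P + tri (e + 2) * Q.lossT := by
  have hW := wr_ne_zero Q.D Q.D_ker _ hx
  have h := sum_le_zero (Q := Q) (P := P) hW
    (fun v => ((d : ℤ) - (((e + 2 : ℕ) : ℤ) - 1)) * ∑ i, Q.ord v (z i) + d * Q.pole v (z a) -
      (Bc (e + 2) (tri (e + 1)) + 1) * qq Q P v - Q.loss v * tri (e + 2)) ?_ ?_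
  · have h1 : ∑ v ∈ supp Q P, Q.wt v * (((d : ℤ) - (((e + 2 : ℕ) : ℤ) - 1)) *
        ∑ i, Q.ord v (z i) + d * Q.pole v (z a) -
        (Bc (e + 2) (tri (e + 1)) + 1) * qq Q P v - Q.loss v * tri (e + 2)) =
        ((d : ℤ) - (((e + 2 : ℕ) : ℤ) - 1)) * ∑ v ∈ supp Q P, Q.wt v * ∑ i, Q.ord v (z i) +
        d * ht Q P (z a) - (Bc (e + 2) (tri (e + 1)) + 1) * HH Q P -
        (∑ v ∈ supp Q P, Q.wt v * Q.loss v) * tri (e + 2) := by
      unfold ht HH
      simp only [Finset.mul_sum, Finset.sum_mul, ← Finset.sum_add_distrib,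
        ← Finset.sum_sub_distrib]
      refine Finset.sum_congr rfl fun v _ => ?_
      rw [mul_sub, mul_sub, mul_add, Finset.mul_sum]
      have h2 : ∑ i, Q.wt v * (((d : ℤ) - (((e + 2 : ℕ) : ℤ) - 1)) * Q.ord v (z i)) =
        ∑ i, ((d : ℤ) - (((e + 2 : ℕ) : ℤ) - 1)) * (Q.wt v * Q.ord v (z i)) :=
        Finset.sum_congr rfl fun i _ => by ring
      rw [h2]
      ring
    rw [h1, sum_sum_ord hz hz0] at h
    have h3 := mul_le_mul_of_nonneg_right (sum_loss (Q := Q) P) (tri_nonneg (e + 2))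
    linarith
  · intro v _
    have hpo : ∀ i, Q.pole v (z i) ≤ qq Q P v := fun i => pole_le_qq (hz i) v
    have hc : ∀ i, Q.G v (-(tri (e + 1) * qq Q P v)) (cof z i) := by
      intro i
      have := G_cof (Q := Q) (v := v) z hpo i
      rwa [mul_comm] at this
    apply G_wr_top (by omega) z (cof z) hz0 (qq_nonneg P v) hpo hc a
    rw [dd_f hS.hf]
    apply G_sum
    intro i _
    have h2 := G_mul (hc i) (G_of_pole_le (pole_le_qq (hS.hP _ (hz i)) v))
    refine G_mono h2 (le_of_eq (by ring))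
  · intro v hv
    have hq := qq_of_notMem hv
    have hpo : ∀ i, Q.pole v (z i) ≤ 0 := fun i => hq ▸ pole_le_qq (hz i) v
    have hc : ∀ i, Q.G v (-(tri (e + 1) * 0)) (cof z i) := by
      intro i
      have := G_cof (Q := Q) (v := v) z hpo i
      rwa [mul_comm] at this
    have h1 := G_wr_main (Q := Q) (v := v) (r := e + 2) (d := d) (by omega) z (cof z) hz0
      le_rfl hpo hc
    refine G_mono h1 ?_
    have h2 : ∑ i, Q.ord v (z i) = 0 :=
      Finset.sum_eq_zero fun i _ => ord_of_notMem hv (hz i) (hz0 i)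
    rw [h2, loss_of_notMem hv]
    simp

end Pool.Agent.W277.UB
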