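import Mathlib
import Pool.Agent.W277.UB.Glob

/-!
# The dependent case
-/

namespace Pool.Agent.W277.UB

open Finset Polynomial PlaceData

variable {k K : Type*} [Field k] [Field K] [Algebra k K]
variable {Q : PlaceData k K}

/-- A minimal dependent subfamily. -/
lemma exists_circuit {n : ℕ} (x : Fin n → K) (hx : ¬ LinearIndependent k x) :
    ∃ I : Finset (Fin n), ∃ g : Fin n → k, (∀ i ∈ I, g i ≠ 0) ∧ I.Nonempty ∧
      ∑ i ∈ I, g i • x i = 0 ∧ ∀ j ∈ I, LinearIndepOn k x (I.erase j : Set (Fin n)) := by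
  classical
  have h1 : ¬ LinearIndepOn k x ((univ : Finset (Fin n)) : Set (Fin n)) := by
    intro h
    apply hx
    rw [Finset.coe_univ] at h
    exact linearIndepOn_univ_iff.mp h
  have h2 : (Finset.univ.filter fun I : Finset (Fin n) =>
      ¬ LinearIndepOn k x (I : Set (Fin n))).Nonempty := ⟨univ, by simpa using h1⟩
  obtain ⟨I, hI, hmin⟩ := Finset.exists_min_image _ (fun I => I.card) h2
  rw [Finset.mem_filter] at hI
  have hI' := hI.2
  have hmin' : ∀ j ∈ I, LinearIndepOn k x (I.erase j : Set (Fin n)) := by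
    intro j hj
    by_contra hcon
    have h3 := hmin (I.erase j) (by
      rw [Finset.mem_filter]
      exact ⟨Finset.mem_univ _, by simpa using hcon⟩)
    have h4 := Finset.card_erase_lt_of_mem hj
    omega
  rw [not_linearIndepOn_finset_iff] at hI'
  obtain ⟨g, hg, i0, hi0, hgi0⟩ := hI'
  refine ⟨I, g, ?_, ⟨i0, hi0⟩, hg, hmin'⟩
  intro j hj hgj
  have h5 := hmin' j hj
  rw [linearIndepOn_finset_iff] at h5
  have h6 : ∑ i ∈ I.erase j, g i • x i = 0 := by
    rw [← hg, ← Finset.add_sum_erase I _ hj, hgj, zero_smul, zero_add]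
  have h7 : i0 ∈ I.erase j := by
    rw [Finset.mem_erase]
    refine ⟨?_, hi0⟩
    rintro rfl
    exact hgi0 hgj
  exact hgi0 (h5 g h6 i0 h7)

lemma Bc_mono {r r' : ℕ} (h : r ≤ r') {C : ℤ} (hC : 0 ≤ C) : Bc r C ≤ Bc r' C := by
  induction h with
  | refl => exact le_rfl
  | step h ih =>
    refine ih.trans ?_
    unfold Bc
    rw [tri_succ]
    push_cast
    have : (0 : ℤ) ≤ (Nat.cast ‹ℕ› : ℤ) := Int.natCast_nonneg _
    nlinarith

lemma tri_mono {r r' : ℕ} (h : r ≤ r') : tri r ≤ tri r' := by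
  induction h with
  | refl => exact le_rfl
  | step h ih =>
    refine ih.trans ?_
    rw [tri_succ]
    have : (0 : ℤ) ≤ (Nat.cast ‹ℕ› : ℤ) := Int.natCast_nonneg _
    linarith

/-- The estimate behind (II), for a family with one point exchanged. -/
lemma caseII_aux {d r : ℕ} {P : Finset K} (hrd : r ≤ d + 1) {C : ℤ}
    (u c : Fin r → K) (hu : ∀ a, u a ∈ P) (hu0 : ∀ a, u a ≠ 0)
    (hc : ∀ a v, Q.G v (-(C * qq Q P v)) (c a)) (a : Fin r) (p b : K) (hp : p ∈ P) (hp0 : p ≠ 0)
    (hb : ∀ v, Q.G v (-(C * qq Q P v)) b)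
    (hli : LinearIndependent k (fun i => u i ^ d * c i)) (g : Fin r → k) (hga : g a ≠ 0)
    (hg : p ^ d * b = ∑ i, g i • (u i ^ d * c i)) :
    ((d : ℤ) - (r - 1)) * ht Q P (u a / p) ≤ Bc r C * HH Q P + tri r * Q.lossT := by
  have hW := wr_ne_zero Q.D Q.D_ker _ hli
  set W := (wrM Q.D (fun i => u i ^ d * c i)).det with hWd
  have hsw := wr_swap Q.D (fun i => u i ^ d * c i) a g
  rw [← hg] at hsw
  have hupd : Function.update (fun i => u i ^ d * c i) a (p ^ d * b) =
      fun i => (Function.update u a p i) ^ d * (Function.update c a b i) := by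
    funext i
    by_cases hi : i = a
    · subst hi
      simp
    · simp [Function.update_of_ne hi]
  rw [hupd] at hsw
  have hu' : ∀ i, Function.update u a p i ∈ P := by
    intro i
    by_cases hi : i = a
    · subst hi
      simpa using hp
    · simpa [Function.update_of_ne hi] using hu i
  have hu0' : ∀ i, Function.update u a p i ≠ 0 := by
    intro i
    by_cases hi : i = a
    · subst hi
      simpa using hp0
    · simpa [Function.update_of_ne hi] using hu0 i
  have hc' : ∀ i v, Q.G v (-(C * qq Q P v)) (Function.update c a b i) := by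
    intro i v
    by_cases hi : i = a
    · subst hi
      simpa using hb v
    · simpa [Function.update_of_ne hi] using hc i v
  have hsum : ∀ v, ∑ i, Q.ord v (Function.update u a p i) =
      ∑ i, Q.ord v (u i) - Q.ord v (u a) + Q.ord v p := by
    intro v
    rw [← Finset.add_sum_erase _ _ (Finset.mem_univ a),
      ← Finset.add_sum_erase (s := Finset.univ) (fun i => Q.ord v (u i)) (Finset.mem_univ a)]
    have h4 : ∑ i ∈ univ.erase a, Q.ord v (Function.update u a p i) =
        ∑ i ∈ univ.erase a, Q.ord v (u i) := by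
      refine Finset.sum_congr rfl fun i hi => ?_
      rw [Function.update_of_ne (Finset.ne_of_mem_erase hi)]
    rw [h4, Function.update_self]
    ring
  have hloc1 : ∀ v, Q.G v (((d : ℤ) - (r - 1)) * ∑ i, Q.ord v (u i) - Bc r C * qq Q P v -
      Q.loss v * tri r) W := fun v =>
    G_wr_main hrd u c hu0 (qq_nonneg P v) (fun i => pole_le_qq (hu i) v) (fun i => hc i v)
  have hloc2 : ∀ v, Q.G v (((d : ℤ) - (r - 1)) * (∑ i, Q.ord v (u i) - Q.ord v (u a) +
      Q.ord v p) - Bc r C * qq Q P v - Q.loss v * tri r) W := by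
    intro v
    have h1 := G_wr_main (Q := Q) (v := v) hrd _ _ hu0' (qq_nonneg P v)
      (fun i => pole_le_qq (hu' i) v) (fun i => hc' i v)
    rw [hsw, hsum v] at h1
    intro _
    have h2 := h1 (mul_ne_zero (by simpa using hga) hW)
    rw [Q.ord_mul v _ _ (by simpa using hga) hW, Q.ord_alg v _ hga, zero_add] at h2
    exact h2
  have hm : 0 ≤ ((d : ℤ) - (r - 1)) := by
    have : (r : ℤ) ≤ d + 1 := by exact_mod_cast hrd
    linarith
  have h := sum_le_zero (Q := Q) (P := P) hW
    (fun v => ((d : ℤ) - (r - 1)) * (∑ i, Q.ord v (u i)) +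
      ((d : ℤ) - (r - 1)) * Q.pole v (u a / p) -
      Bc r C * qq Q P v - Q.loss v * tri r) ?_ ?_
  · have h1 : ∑ v ∈ supp Q P, Q.wt v * (((d : ℤ) - (r - 1)) * (∑ i, Q.ord v (u i)) +
        ((d : ℤ) - (r - 1)) * Q.pole v (u a / p) -
        Bc r C * qq Q P v - Q.loss v * tri r) =
        ((d : ℤ) - (r - 1)) * ∑ v ∈ supp Q P, Q.wt v * ∑ i, Q.ord v (u i) +
        ((d : ℤ) - (r - 1)) * ht Q P (u a / p) - Bc r C * HH Q P -
        (∑ v ∈ supp Q P, Q.wt v * Q.loss v) * tri r := by
      unfold ht HH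
      rw [Finset.mul_sum, Finset.mul_sum, Finset.mul_sum, Finset.sum_mul,
        ← Finset.sum_add_distrib, ← Finset.sum_sub_distrib, ← Finset.sum_sub_distrib]
      exact Finset.sum_congr rfl fun v _ => by ring
    rw [h1, sum_sum_ord hu hu0] at h
    have h3 := mul_le_mul_of_nonneg_right (sum_loss (Q := Q) P) (tri_nonneg r)
    linarith
  · intro v _
    have hup : u a / p ≠ 0 := div_ne_zero (hu0 a) hp0
    rw [pole_of_ne hup, ord_div (hu0 a) hp0]
    rcases le_total (- (Q.ord v (u a) - Q.ord v p)) 0 with h0 | h0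
    · rw [max_eq_left h0]
      refine G_mono (hloc1 v) (le_of_eq (by ring))
    · rw [max_eq_right h0]
      refine G_mono (hloc2 v) (le_of_eq (by ring))
  · intro v hv
    have h2 : ∑ i, Q.ord v (u i) = 0 :=
      Finset.sum_eq_zero fun i _ => ord_of_notMem hv (hu i) (hu0 i)
    have h1 := hloc1 v
    rw [h2, loss_of_notMem hv, qq_of_notMem hv] at h1
    simpa using h1

/-- (II): the dependent case. -/
lemma caseII {e d : ℕ} {P : Finset K} (hed : e + 1 ≤ d)
    (z : Fin (e + 2) → K) (hz : ∀ i, z i ∈ P) (hz0 : ∀ i, z i ≠ 0) (hzi : Function.Injective z)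
    (hx : ¬ LinearIndependent k (fun i => z i ^ d * cof z i)) :
    ∃ i j, i ≠ j ∧
      ((d : ℤ) - e) * ht Q P (z i / z j) ≤
        Bc (e + 1) (tri (e + 1)) * HH Q P + tri (e + 1) * Q.lossT ∧
      ((d : ℤ) - e) * ht Q P (z j / z i) ≤
        Bc (e + 1) (tri (e + 1)) * HH Q P + tri (e + 1) * Q.lossT := by
  classical
  obtain ⟨I, g, hg0, hI, hg, hind⟩ := exists_circuit _ hx
  set x : Fin (e + 2) → K := fun i => z i ^ d * cof z i with hxd
  have hx0 : ∀ i, x i ≠ 0 := fun i => mul_ne_zero (pow_ne_zero _ (hz0 i)) (cof_ne_zero hzi i)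
  have hc : ∀ i (v : Q.Pl), Q.G v (-(tri (e + 1) * qq Q P v)) (cof z i) := by
    intro i v
    have := G_cof (Q := Q) (v := v) z (fun i => pole_le_qq (hz i) v) i
    rwa [mul_comm] at this
  have key : ∀ i0 j0, i0 ∈ I → j0 ∈ I → i0 ≠ j0 →
      ((d : ℤ) - e) * ht Q P (z i0 / z j0) ≤
        Bc (e + 1) (tri (e + 1)) * HH Q P + tri (e + 1) * Q.lossT := by
    intro i0 j0 hi0 hj0 hij
    set J := I.erase j0 with hJ
    have hiJ : i0 ∈ J := Finset.mem_erase.mpr ⟨hij, hi0⟩
    set r := J.card with hr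
    let s : Fin r ≃ J := J.equivFin.symm
    have hr1 : r ≤ e + 1 := by
      have h1 := Finset.card_le_univ I
      rw [Fintype.card_fin] at h1
      have h2 : J.card < I.card := Finset.card_erase_lt_of_mem hj0
      omega
    have hli : LinearIndependent k (fun a : Fin r => z (s a) ^ d * cof z (s a)) := by
      have h1 : LinearIndependent k (fun i : J => x i) := by
        have := hind j0 hj0
        exact this
      exact h1.comp s s.injective
    have hsum : z j0 ^ d * cof z j0 =
        ∑ a : Fin r, (-(g (s a)) / g j0) • (z (s a) ^ d * cof z (s a)) := by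
      have h1 : ∑ a : Fin r, (-(g (s a)) / g j0) • x (s a) =
          ∑ i ∈ J, (-(g i) / g j0) • x i := by
        rw [← Finset.sum_coe_sort J (fun i => (-(g i) / g j0) • x i)]
        exact Equiv.sum_comp s (fun i : J => (-(g i) / g j0) • x i)
      have h2 : g j0 • (∑ i ∈ J, (-(g i) / g j0) • x i) = g j0 • x j0 := by
        rw [Finset.smul_sum]
        have h3 : ∀ i ∈ J, g j0 • ((-(g i) / g j0) • x i) = - (g i • x i) := by
          intro i _
          rw [smul_smul, mul_div_cancel₀ _ (hg0 j0 hj0), neg_smul]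
        rw [Finset.sum_congr rfl h3, Finset.sum_neg_distrib]
        rw [← Finset.add_sum_erase I _ hj0] at hg
        exact (eq_neg_of_add_eq_zero_left hg).symm
      have h4 : ∑ i ∈ J, (-(g i) / g j0) • x i = x j0 := by
        have h5 := congrArg (fun t => (g j0)⁻¹ • t) h2
        simpa [smul_smul, inv_mul_cancel₀ (hg0 j0 hj0)] using h5
      rw [h4] at h1
      exact h1.symm
    have h := caseII_aux (Q := Q) (P := P) (d := d) (r := r) (by omega) (C := tri (e + 1))
      (fun a => z (s a)) (fun a => cof z (s a)) (fun a => hz _) (fun a => hz0 _)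
      (fun a v => hc _ v) (s.symm ⟨i0, hiJ⟩) (z j0) (cof z j0) (hz j0) (hz0 j0)
      (fun v => hc j0 v) hli (fun a => -(g (s a)) / g j0) (by
        rw [Equiv.apply_symm_apply]
        exact div_ne_zero (neg_ne_zero.mpr (hg0 i0 hi0)) (hg0 j0 hj0)) hsum
    rw [Equiv.apply_symm_apply] at h
    have h6 : ((d : ℤ) - e) * ht Q P (z i0 / z j0) ≤
        ((d : ℤ) - (r - 1)) * ht Q P (z i0 / z j0) := by
      apply mul_le_mul_of_nonneg_right _ (ht_nonneg P _)
      have : (r : ℤ) ≤ e + 1 := by exact_mod_cast hr1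
      linarith
    have h7 := mul_le_mul_of_nonneg_right (Bc_mono hr1 (tri_nonneg (e + 1)))
      (HH_nonneg (Q := Q) P)
    have h8 := mul_le_mul_of_nonneg_right (tri_mono hr1) (lossT_nonneg (Q := Q))
    linarith
  have hcard : 1 < I.card := by
    by_contra hcon
    have h1 : I.card = 1 := by
      have := Finset.card_pos.mpr hI
      omega
    obtain ⟨i, hi⟩ := Finset.card_eq_one.mp h1
    rw [hi, Finset.sum_singleton] at hg
    rcases smul_eq_zero.mp hg with h2 | h2
    · exact hg0 i (by rw [hi]; exact mem_singleton_self i) h2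
    · exact hx0 i h2
  obtain ⟨i, hi, j, hj, hij⟩ := Finset.one_lt_card.mp hcard
  exact ⟨i, j, hij, key i j hi hj hij, key j i hj hi (Ne.symm hij)⟩

end Pool.Agent.W277.UB
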