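import Mathlib
import Pool.Agent.W277.UB.Glob2

/-!
# Few points of small height, and points of a cluster
-/

namespace Pool.Agent.W277.UB

open Finset Polynomial PlaceData

variable {k K : Type*} [Field k] [Field K] [Algebra k K]
variable {Q : PlaceData k K}

lemma cof_cons_zero {n : ℕ} (p : K) (z : Fin n → K) :
    cof (Fin.cons p z : Fin (n + 1) → K) 0 = (Matrix.vandermonde z).det := by
  unfold cof
  have h : ((Fin.cons p z : Fin (n + 1) → K) ∘ (0 : Fin (n + 1)).succAbove) = z := by
    funext i
    simp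
  rw [h]
  simp

/-- Local estimate for (III). -/
lemma caseIII_loc {e d : ℕ} {f : K[X]} {P : Finset K} (hS : Stab e d f P) (hd : 2 ≤ d)
    (z : Fin (e + 1) → K) (hz : ∀ i, z i ∈ P) (v : Q.Pl) :
    Q.G v (((d : ℤ) - e - 1) * qq Q P v - (d + tri e) * ∑ i, Q.pole v (z i))
      (Matrix.vandermonde z).det := by
  intro hV
  have hm0 : 0 ≤ ∑ i, Q.pole v (z i) := Finset.sum_nonneg fun i _ => pole_nonneg v _
  have hle : ∀ i, Q.pole v (z i) ≤ ∑ i, Q.pole v (z i) := fun i =>
    Finset.single_le_sum (f := fun i => Q.pole v (z i)) (fun i _ => pole_nonneg v _)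
      (Finset.mem_univ i)
  rcases eq_or_lt_of_le (qq_nonneg (Q := Q) P v) with hq | hq
  · have h1 : ∀ i, Q.pole v (z i) ≤ 0 := fun i => by
      have := pole_le_qq (hz i) v
      rwa [← hq] at this
    have h2 := G_vander (Q := Q) (v := v) z h1 hV
    rw [zero_mul, neg_zero] at h2
    have h3 := tri_nonneg e
    have h4 : (0 : ℤ) ≤ (d + tri e) * ∑ i, Q.pole v (z i) :=
      mul_nonneg (by positivity) hm0
    rw [← hq]
    linarith
  · obtain ⟨p, hp, hp0, hpo⟩ := exists_qq hq
    set q := qq Q P v with hqd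
    set m := min (∑ i, Q.pole v (z i)) q with hmd
    have hmq : m ≤ q := min_le_right _ _
    have hmm : m ≤ ∑ i, Q.pole v (z i) := min_le_left _ _
    have hm0' : 0 ≤ m := le_min hm0 hq.le
    have hzm : ∀ i, Q.pole v (z i) ≤ m := fun i => le_min (hle i) (pole_le_qq (hz i) v)
    have hpq : Q.pole v p ≤ q := pole_le_qq hp v
    have hid := dd_f hS.hf (Fin.cons p z : Fin (e + 2) → K)
    rw [Fin.sum_univ_succ (n := e + 1), Fin.sum_univ_succ (n := e + 1)] at hid
    simp only [Fin.cons_zero, Fin.cons_succ, cof_cons_zero] at hid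
    have hid2 : (p ^ d - f.eval p) * (Matrix.vandermonde z).det =
        ∑ i : Fin (e + 1), cof (Fin.cons p z : Fin (e + 2) → K) i.succ *
          (f.eval (z i) - z i ^ d) := by
      have h1 : ∑ i : Fin (e + 1), cof (Fin.cons p z : Fin (e + 2) → K) i.succ *
          (f.eval (z i) - z i ^ d) =
          ∑ i : Fin (e + 1), cof (Fin.cons p z : Fin (e + 2) → K) i.succ * f.eval (z i) -
          ∑ i : Fin (e + 1), z i ^ d * cof (Fin.cons p z : Fin (e + 2) → K) i.succ := by
        rw [← Finset.sum_sub_distrib]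
        exact Finset.sum_congr rfl fun i _ => by ring
      rw [h1]
      linear_combination hid
    have hG : Q.G v (-(e + 1) * q - (d + tri e) * m)
        ((p ^ d - f.eval p) * (Matrix.vandermonde z).det) := by
      rw [hid2]
      apply G_sum
      intro i _
      have h1 : Q.G v (-(e * q) - m * tri e) (cof (Fin.cons p z : Fin (e + 2) → K) i.succ) := by
        apply G_cof_sign
        apply G_vander' (n := e) _ 0
        · intro j hj
          obtain ⟨j', rfl⟩ := Fin.exists_succ_eq.mpr hj
          simp only [Function.comp_apply]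
          rw [Fin.succ_succAbove_succ, Fin.cons_succ]
          exact hzm _
        · simp only [Function.comp_apply]
          rw [Fin.succ_succAbove_zero, Fin.cons_zero]
          exact hpq
        · exact hmq
      have h2 : Q.G v (-q - d * m) (f.eval (z i) - z i ^ d) := by
        apply G_sub
        · refine G_mono (G_of_pole_le (pole_le_qq (hS.hP _ (hz i)) v)) ?_
          have : (0 : ℤ) ≤ d * m := by positivity
          linarith
        · refine G_mono (G_pow (G_of_pole_le (hzm i)) d) ?_
          have : (d : ℤ) * -m = - (d * m) := by ring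
          rw [this]
          linarith
      refine G_mono (G_mul h1 h2) (le_of_eq (by ring))
    have hneg : ¬ (-(d * q) + 1 ≤ Q.ord v (p ^ d)) := by
      rw [ord_pow hp0, hpo]
      push Not
      nlinarith
    have hfp : Q.G v (-(d * q) + 1) (f.eval p) := by
      refine G_mono (G_of_pole_le (pole_le_qq (hS.hP _ hp) v)) ?_
      have : (2 : ℤ) * q ≤ d * q := mul_le_mul_of_nonneg_right (by exact_mod_cast hd) hq.le
      linarith
    have ha0 : p ^ d - f.eval p ≠ 0 := by
      intro h
      apply hneg
      have h1 : p ^ d = f.eval p := sub_eq_zero.mp h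
      rw [h1]
      exact hfp (h1 ▸ pow_ne_zero d hp0)
    have ha : Q.ord v (p ^ d - f.eval p) ≤ -(d * q) := by
      by_contra hcon
      apply hneg
      have h1 : Q.G v (-(d * q) + 1) (p ^ d - f.eval p) := fun _ => by omega
      have h2 := G_add h1 hfp
      rw [sub_add_cancel] at h2
      exact h2 (pow_ne_zero d hp0)
    have h3 := hG (mul_ne_zero ha0 hV)
    rw [Q.ord_mul v _ _ ha0 hV] at h3
    have h4 : (d + tri e) * m ≤ (d + tri e) * ∑ i, Q.pole v (z i) :=
      mul_le_mul_of_nonneg_left hmm (by have := tri_nonneg e; positivity)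
    linarith

/-- (III): few points have small height. -/
lemma caseIII {e d : ℕ} {f : K[X]} {P : Finset K} (hS : Stab e d f P) (hd : 2 ≤ d)
    (hN : 2 * ((e : ℤ) + 1) + tri e < d) (hH : 0 < HH Q P)
    (z : Fin (e + 1) → K) (hz : ∀ i, z i ∈ P) (hzi : Function.Injective z)
    (hh : ∀ i, 2 * ((e : ℤ) + 1) * ht Q P (z i) ≤ HH Q P) : False := by
  have hV : (Matrix.vandermonde z).det ≠ 0 := Matrix.det_vandermonde_ne_zero_iff.mpr hzi
  have h := sum_le_zero (Q := Q) (P := P) hV
    (fun v => ((d : ℤ) - e - 1) * qq Q P v - (d + tri e) * ∑ i, Q.pole v (z i))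
    (fun v _ => caseIII_loc hS hd z hz v) ?_
  · have h1 : ∑ v ∈ supp Q P, Q.wt v * (((d : ℤ) - e - 1) * qq Q P v -
        (d + tri e) * ∑ i, Q.pole v (z i)) =
        ((d : ℤ) - e - 1) * HH Q P - (d + tri e) * ∑ i, ht Q P (z i) := by
      unfold HH ht
      rw [Finset.sum_comm, Finset.mul_sum, Finset.mul_sum, ← Finset.sum_sub_distrib]
      refine Finset.sum_congr rfl fun v _ => ?_
      rw [← Finset.mul_sum]
      ring
    rw [h1] at h
    have h2 : 2 * ((e : ℤ) + 1) * ∑ i, ht Q P (z i) ≤ (e + 1) * HH Q P := by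
      rw [Finset.mul_sum]
      refine le_trans (Finset.sum_le_sum fun i _ => hh i) ?_
      simp
    have h3 := mul_le_mul_of_nonneg_left h2 (a := (d : ℤ) + tri e)
      (by have := tri_nonneg e; positivity)
    have h4 : ((e : ℤ) + 1) * (2 * ((d : ℤ) - e - 1) - (d + tri e)) * HH Q P ≤ 0 := by
      have h5 : 2 * ((e : ℤ) + 1) * (((d : ℤ) - e - 1) * HH Q P -
          (d + tri e) * ∑ i, ht Q P (z i)) ≤ 0 := by
        have : (0 : ℤ) ≤ 2 * ((e : ℤ) + 1) := by positivity
        nlinarith
      nlinarith
    have h6 : 0 < ((e : ℤ) + 1) * (2 * ((d : ℤ) - e - 1) - (d + tri e)) * HH Q P := by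
      apply mul_pos _ hH
      apply mul_pos (by positivity)
      linarith
    linarith
  · intro v hv
    have hq := qq_of_notMem hv
    have hpo : ∀ i, Q.pole v (z i) ≤ 0 := fun i => hq ▸ pole_le_qq (hz i) v
    have := G_vander (Q := Q) (v := v) z hpo
    simpa using this

/-- (IV): points close to `y`. -/
lemma caseIV {e d : ℕ} {f : K[X]} {P : Finset K} (hS : Stab e d f P)
    (y : K) (hy : y ∈ P) (hy0 : y ≠ 0) (u : Fin (e + 2) → K) (hu : ∀ i, y * u i ∈ P)
    (hG0 : ∑ i, u i ^ d * cof u i ≠ 0) :
    d * ht Q P y ≤ (d + tri (e + 1)) * ∑ i, ht Q P (u i) + HH Q P := by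
  have hm0 : ∀ v, 0 ≤ ∑ i, Q.pole v (u i) := fun v => Finset.sum_nonneg fun i _ => pole_nonneg v _
  have hle : ∀ v i, Q.pole v (u i) ≤ ∑ i, Q.pole v (u i) := fun v i =>
    Finset.single_le_sum (f := fun i => Q.pole v (u i)) (fun i _ => pole_nonneg v _)
      (Finset.mem_univ i)
  have hid : y ^ d * ∑ i, u i ^ d * cof u i = ∑ i, cof u i * f.eval (y * u i) := by
    have h1 : ((f - X ^ d).comp (C y * X)).natDegree < e + 1 := by
      refine lt_of_le_of_lt natDegree_comp_le ?_
      have h2 : (C y * X : K[X]).natDegree ≤ 1 := (natDegree_C_mul_le y X).trans natDegree_X_le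
      have h3 : (f - X ^ d).natDegree * (C y * X : K[X]).natDegree ≤ e * 1 :=
        Nat.mul_le_mul hS.hf h2
      omega
    have h2 := dd_poly u _ h1
    simp only [eval_comp, eval_mul, eval_C, eval_X, eval_sub, eval_pow, mul_sub] at h2
    rw [Finset.sum_sub_distrib, sub_eq_zero] at h2
    rw [h2, Finset.mul_sum]
    exact Finset.sum_congr rfl fun i _ => by ring
  have hloc : ∀ v, Q.G v (d * Q.pole v y - (d + tri (e + 1)) * ∑ i, Q.pole v (u i) - qq Q P v)
      (∑ i, u i ^ d * cof u i) := by
    intro v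
    have hcof : ∀ i, Q.G v (-((∑ i, Q.pole v (u i)) * tri (e + 1))) (cof u i) :=
      fun i => G_cof u (hle v) i
    rcases eq_or_lt_of_le (pole_nonneg v y) with h0 | h0
    · rw [← h0]
      apply G_sum
      intro i _
      refine G_mono (G_mul (G_pow (G_of_pole_le (hle v i)) d) (hcof i)) ?_
      have h1 := qq_nonneg (Q := Q) P v
      linarith
    · have hord : Q.pole v y = - Q.ord v y := by
        rw [pole_of_ne hy0] at h0 ⊢
        rcases max_choice 0 (- Q.ord v y) with h | h
        · rw [h] at h0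
          exact absurd h0 (lt_irrefl _)
        · exact h
      have h1 : Q.G v (-((∑ i, Q.pole v (u i)) * tri (e + 1)) - qq Q P v)
          (y ^ d * ∑ i, u i ^ d * cof u i) := by
        rw [hid]
        apply G_sum
        intro i _
        exact G_mul (hcof i) (G_of_pole_le (pole_le_qq (hS.hP _ (hu i)) v))
      intro hne
      have h2 := h1 (mul_ne_zero (pow_ne_zero d hy0) hne)
      rw [Q.ord_mul v _ _ (pow_ne_zero d hy0) hne, ord_pow hy0] at h2
      have h3 : (0 : ℤ) ≤ d * ∑ i, Q.pole v (u i) := mul_nonneg (by positivity) (hm0 v)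
      rw [hord]
      linarith
  have h := sum_le_zero (Q := Q) (P := P) hG0 _ (fun v _ => hloc v) ?_
  · have h1 : ∑ v ∈ supp Q P, Q.wt v * (d * Q.pole v y -
        (d + tri (e + 1)) * ∑ i, Q.pole v (u i) - qq Q P v) =
        d * ht Q P y - (d + tri (e + 1)) * ∑ i, ht Q P (u i) - HH Q P := by
      unfold HH ht
      rw [Finset.sum_comm, Finset.mul_sum, Finset.mul_sum, ← Finset.sum_sub_distrib,
        ← Finset.sum_sub_distrib]
      refine Finset.sum_congr rfl fun v _ => ?_
      rw [← Finset.mul_sum]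
      ring
    rw [h1] at h
    linarith
  · intro v hv
    have h1 := hloc v
    have h2 : ∀ i, Q.pole v (u i) = 0 := by
      intro i
      have h3 : u i = (y * u i) / y := by field_simp
      rw [h3]
      exact ht_ratio_zero hv (hu i) hy
    have h4 : Q.pole v y = 0 := by
      have h5 := pole_le_qq hy v
      rw [qq_of_notMem hv] at h5
      exact le_antisymm h5 (pole_nonneg v y)
    rw [h4, qq_of_notMem hv, Finset.sum_eq_zero fun i _ => h2 i] at h1
    simpa using h1

/-- Among more than `d` elements there are `e + 2` with nonzero divided difference. -/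
lemma exists_dd_ne {e d : ℕ} (hed : e + 1 ≤ d) (U : Finset K) (hU : d < U.card) :
    ∃ u : Fin (e + 2) → K, (∀ i, u i ∈ U) ∧ ∑ i, u i ^ d * cof u i ≠ 0 := by
  classical
  obtain ⟨T, hTU, hT⟩ := Finset.exists_subset_card_eq (show e + 1 ≤ U.card by omega)
  let t : Fin (e + 1) → K := fun i => (T.equivFinOfCardEq hT).symm i
  have ht : Function.Injective t := by
    intro a b hab
    exact (T.equivFinOfCardEq hT).symm.injective (Subtype.ext hab)
  have htU : ∀ i, t i ∈ U := fun i => hTU ((T.equivFinOfCardEq hT).symm i).2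
  set p : K[X] := Lagrange.interpolate univ t (fun i => t i ^ d) with hp
  have hpd : p.degree < ((e + 1 : ℕ) : WithBot ℕ) := by
    have h1 := Lagrange.degree_interpolate_lt (s := univ) (v := t) (fun i => t i ^ d)
      (ht.injOn)
    rwa [Finset.card_univ, Fintype.card_fin] at h1
  have hpe : ∀ i, p.eval (t i) = t i ^ d := fun i =>
    Lagrange.eval_interpolate_at_node _ ht.injOn (Finset.mem_univ i)
  have hpd' : p.degree < (X ^ d : K[X]).degree := by
    rw [degree_X_pow]
    exact lt_of_lt_of_le hpd (by exact_mod_cast hed)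
  have hR : (X ^ d - p : K[X]).degree = ((d : ℕ) : WithBot ℕ) := by
    rw [degree_sub_eq_left_of_degree_lt hpd', degree_X_pow]
  have hR0 : X ^ d - p ≠ 0 := by
    intro h
    rw [h, degree_zero] at hR
    exact absurd hR (by simp)
  obtain ⟨w, hwU, hw⟩ : ∃ w ∈ U, (X ^ d - p).eval w ≠ 0 := by
    by_contra hcon
    push Not at hcon
    have h1 : U ⊆ (X ^ d - p).roots.toFinset := by
      intro w hw
      rw [Multiset.mem_toFinset, mem_roots hR0]
      exact hcon w hw
    have h2 := Finset.card_le_card h1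
    have h3 := Multiset.toFinset_card_le (X ^ d - p).roots
    have h4 := card_roots' (X ^ d - p)
    have h5 : (X ^ d - p).natDegree = d := natDegree_eq_of_degree_eq_some hR
    omega
  refine ⟨Fin.cons w t, ?_, ?_⟩
  · intro i
    refine Fin.cases ?_ (fun i => ?_) i
    · simpa using hwU
    · simpa using htU i
  · have h1 : p.natDegree < e + 1 := by
      by_cases hp0 : p = 0
      · rw [hp0]
        simp
      · exact (natDegree_lt_iff_degree_lt hp0).mpr hpd
    have h2 := dd_poly (Fin.cons w t : Fin (e + 2) → K) p h1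
    have h3 : ∑ i, (Fin.cons w t : Fin (e + 2) → K) i ^ d * cof (Fin.cons w t) i =
        (Matrix.vandermonde t).det * (w ^ d - p.eval w) := by
      have h4 : ∑ i, (Fin.cons w t : Fin (e + 2) → K) i ^ d * cof (Fin.cons w t) i =
          ∑ i, cof (Fin.cons w t : Fin (e + 2) → K) i *
            ((Fin.cons w t : Fin (e + 2) → K) i ^ d - p.eval ((Fin.cons w t : Fin (e + 2) → K) i)) +
          ∑ i, cof (Fin.cons w t : Fin (e + 2) → K) i *
            p.eval ((Fin.cons w t : Fin (e + 2) → K) i) := by
        rw [← Finset.sum_add_distrib]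
        exact Finset.sum_congr rfl fun i _ => by ring
      rw [h4, h2, add_zero, Fin.sum_univ_succ]
      simp only [Fin.cons_zero, Fin.cons_succ, cof_cons_zero, hpe, sub_self, mul_zero,
        Finset.sum_const_zero, add_zero]
    rw [h3]
    apply mul_ne_zero (Matrix.det_vandermonde_ne_zero_iff.mpr ht)
    simpa using hw

end Pool.Agent.W277.UB
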