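import Mathlib
import Pool.Agent.W277.UB.Glob3

/-!
# The bound for finite stable sets
-/

namespace Pool.Agent.W277.UB

open Finset Polynomial PlaceData

variable {k K : Type*} [Field k] [Field K] [Algebra k K]
variable {Q : PlaceData k K}

/-- If the total size vanishes, all points are constant. -/
lemma const_of_HH {P : Finset K} (hH : HH Q P = 0) {z : K} (hz : z ∈ P) :
    ∃ c : k, algebraMap k K c = z := by
  by_cases hz0 : z = 0
  · exact ⟨0, by rw [map_zero, hz0]⟩
  apply Q.const z hz0
  intro v
  by_cases hv : v ∈ supp Q P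
  · have h1 := (Finset.sum_eq_zero_iff_of_nonneg fun v _ =>
      mul_nonneg (Q.wt_nonneg v) (qq_nonneg P v)).mp hH v hv
    have h2 : qq Q P v = 0 := by
      rcases mul_eq_zero.mp h1 with h | h
      · have := Q.wt_one v
        omega
      · exact h
    have h3 := pole_le_qq hz v
    rw [h2, pole_of_ne hz0] at h3
    have := le_max_right 0 (- Q.ord v z)
    linarith
  · exact le_of_eq (ord_of_notMem hv hz hz0).symm

/-- A polynomial of degree `≤ d` taking constant values at more than `d` constants has constant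
coefficients. -/
lemma const_poly {d : ℕ} {f : K[X]} (hf : f.natDegree ≤ d) {P : Finset K}
    (h1 : ∀ z ∈ P, ∃ c : k, algebraMap k K c = z)
    (h2 : ∀ z ∈ P, ∃ c : k, algebraMap k K c = f.eval z) (hP : d < P.card) :
    ∃ g : k[X], g.map (algebraMap k K) = f := by
  classical
  obtain ⟨T, hTP, hT⟩ := Finset.exists_subset_card_eq (show d + 1 ≤ P.card by omega)
  have h1' : ∀ z : T, ∃ c : k, algebraMap k K c = z := fun z => h1 z (hTP z.2)
  have h2' : ∀ z : T, ∃ c : k, algebraMap k K c = f.eval (z : K) := fun z => h2 z (hTP z.2)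
  choose a ha using h1'
  choose b hb using h2'
  have hai : Function.Injective a := by
    intro x y hxy
    apply Subtype.ext
    rw [← ha x, ← ha y, hxy]
  set g : k[X] := Lagrange.interpolate univ a b with hg
  have hgd : g.degree < ((d + 1 : ℕ) : WithBot ℕ) := by
    have h3 := Lagrange.degree_interpolate_lt (s := univ) (v := a) b hai.injOn
    rwa [Finset.card_univ, Fintype.card_coe, hT] at h3
  have hge : ∀ z : T, g.eval (a z) = b z := fun z =>
    Lagrange.eval_interpolate_at_node _ hai.injOn (Finset.mem_univ z)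
  refine ⟨g, ?_⟩
  have hmd : (g.map (algebraMap k K)).degree < (T.card : WithBot ℕ) := by
    rw [degree_map, hT]
    exact hgd
  have hfd : f.degree < (T.card : WithBot ℕ) := by
    rw [hT]
    refine lt_of_le_of_lt degree_le_natDegree ?_
    exact_mod_cast Nat.lt_succ_of_le hf
  apply eq_of_degrees_lt_of_eval_finset_eq T hmd hfd
  intro z hz
  have h4 := hge ⟨z, hz⟩
  have h5 := ha ⟨z, hz⟩
  have h6 := hb ⟨z, hz⟩
  simp only at h5 h6
  rw [← h6, ← h4, eval_map_algebraMap]
  conv_lhs => rw [← h5]
  rw [aeval_algebraMap_apply, coe_aeval_eq_eval]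

/-- An injection from `Fin n` into a finset of size at least `n`. -/
lemma exists_inj {α : Type*} (n : ℕ) (S : Finset α) (h : n ≤ S.card) :
    ∃ z : Fin n → α, Function.Injective z ∧ ∀ i, z i ∈ S := by
  obtain ⟨T, hTS, hT⟩ := Finset.exists_subset_card_eq h
  refine ⟨fun i => (T.equivFinOfCardEq hT).symm i, ?_, fun i =>
    hTS ((T.equivFinOfCardEq hT).symm i).2⟩
  intro a b hab
  exact (T.equivFinOfCardEq hT).symm.injective (Subtype.ext hab)

/-- Covering by clusters. -/
lemma exists_cover {α : Type*} [DecidableEq α] (S : Finset α) (R : α → α → Prop)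
    (hrefl : ∀ x ∈ S, R x x) (n : ℕ)
    (h : ∀ z : Fin (n + 1) → α, Function.Injective z → (∀ i, z i ∈ S) →
      ∃ i j, i ≠ j ∧ R (z i) (z j) ∧ R (z j) (z i)) :
    ∃ Y ⊆ S, Y.card ≤ n ∧ ∀ x ∈ S, ∃ y ∈ Y, R x y := by
  classical
  have h2 : (S.powerset.filter fun Y : Finset α =>
      ∀ x ∈ Y, ∀ y ∈ Y, x ≠ y → ¬ (R x y ∧ R y x)).Nonempty :=
    ⟨∅, by simp⟩
  obtain ⟨Y, hY, hmax⟩ := Finset.exists_max_image _ (fun I => I.card) h2
  rw [Finset.mem_filter, Finset.mem_powerset] at hY
  obtain ⟨hYS, hY⟩ := hY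
  refine ⟨Y, hYS, ?_, ?_⟩
  · by_contra hcon
    push Not at hcon
    obtain ⟨z, hzi, hz⟩ := exists_inj (n + 1) Y hcon
    obtain ⟨i, j, hij, h3, h4⟩ := h z hzi fun i => hYS (hz i)
    exact hY (z i) (hz i) (z j) (hz j) (fun h => hij (hzi h)) ⟨h3, h4⟩
  · intro x hx
    by_cases hxY : x ∈ Y
    · exact ⟨x, hxY, hrefl x hx⟩
    · by_contra hcon
      push Not at hcon
      have h3 := hmax (insert x Y) (by
        rw [Finset.mem_filter, Finset.mem_powerset]
        refine ⟨Finset.insert_subset hx hYS, ?_⟩
        intro a ha b hb hab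
        rw [Finset.mem_insert] at ha hb
        rcases ha with rfl | ha
        · rcases hb with rfl | hb
          · exact absurd rfl hab
          · exact fun h => hcon b hb h.1
        · rcases hb with rfl | hb
          · exact fun h => hcon a ha h.2
          · exact hY a ha b hb hab)
      rw [Finset.card_insert_of_notMem hxY] at h3
      omega

/-- The numerical constants. -/
def B1 (e : ℕ) : ℤ := Bc (e + 2) (tri (e + 1)) + 2

def B2 (e : ℕ) : ℤ := Bc (e + 1) (tri (e + 1)) + 1

/-- The bound for finite sets stable under `f`, of large total size. -/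
theorem card_le_large {e d : ℕ} {f : K[X]} {P : Finset K} (hS : Stab e d f P)
    (hd : 2 ≤ d) (hed : e + 1 ≤ d)
    (hN1 : 2 * ((e : ℤ) + 1) * B1 e ≤ d)
    (hN2 : 2 * ((e : ℤ) + 1) * ((d + tri (e + 1)) * ((e + 2) * B2 e) + (d - e)) ≤ d * (d - e))
    (hN3 : 2 * ((e : ℤ) + 1) + tri e < d)
    (hH : 0 < HH Q P) (hΛ : tri (e + 2) * Q.lossT ≤ HH Q P) :
    P.card ≤ (e + 1) * d + e := by
  classical
  · have hH1 : 1 ≤ HH Q P := hH
    have hΛ' : tri (e + 1) * Q.lossT ≤ HH Q P :=
      (mul_le_mul_of_nonneg_right (tri_mono (Nat.le_succ _)) (lossT_nonneg (Q := Q))).trans hΛ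
    set Ps := P.filter fun z => HH Q P < 2 * ((e : ℤ) + 1) * ht Q P z with hPs
    set R : K → K → Prop := fun x y => ((d : ℤ) - e) * ht Q P (x / y) ≤ B2 e * HH Q P with hR
    have hde : (0 : ℤ) < d - e := by
      have : ((e : ℤ) + 1) ≤ d := by exact_mod_cast hed
      linarith
    have htri2 := tri_nonneg (e + 2)
    have htri1 := tri_nonneg (e + 1)
    have hloss := lossT_nonneg (Q := Q)
    have hB2 : 0 ≤ B2 e := by
      unfold B2 Bc
      positivity
    have hPs0 : ∀ z ∈ Ps, z ≠ 0 := by
      intro z hz hz0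
      rw [hPs, Finset.mem_filter] at hz
      have h1 : ht Q P z = 0 := by
        unfold ht
        exact Finset.sum_eq_zero fun v _ => by rw [hz0, pole_zero, mul_zero]
      rw [h1, mul_zero] at hz
      linarith [hz.2]
    have hPsP : ∀ z ∈ Ps, z ∈ P := fun z hz => (Finset.mem_filter.mp hz).1
    -- few points of small height
    have hsmall : (P \ Ps).card ≤ e := by
      by_contra hcon
      push Not at hcon
      obtain ⟨z, hzi, hz⟩ := exists_inj (e + 1) (P \ Ps) hcon
      apply caseIII hS hd hN3 hH z (fun i => (Finset.mem_sdiff.mp (hz i)).1) hzi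
      intro i
      have h1 := (Finset.mem_sdiff.mp (hz i)).2
      rw [hPs, Finset.mem_filter] at h1
      push Not at h1
      exact h1 (Finset.mem_sdiff.mp (hz i)).1
    -- clusters
    obtain ⟨Y, hYS, hYc, hcov⟩ := exists_cover Ps R (by
      intro x hx
      rw [hR]
      have h1 : ht Q P (x / x) = 0 := by
        rw [div_self (hPs0 x hx)]
        unfold ht
        refine Finset.sum_eq_zero fun v _ => ?_
        rw [pole_of_ne one_ne_zero, ord_one]
        simp
      simp only [h1, mul_zero]
      exact mul_nonneg hB2 hH.le) (e + 1) (by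
      intro z hzi hz
      have hzP : ∀ i, z i ∈ P := fun i => hPsP _ (hz i)
      have hz0 : ∀ i, z i ≠ 0 := fun i => hPs0 _ (hz i)
      by_cases hx : LinearIndependent k (fun i => z i ^ d * cof z i)
      · exfalso
        have h1 := caseI (Q := Q) hS hed z hzP hz0 hx 0
        have h2 : HH Q P < 2 * ((e : ℤ) + 1) * ht Q P (z 0) := (Finset.mem_filter.mp (hz 0)).2
        have h3 : (Bc (e + 2) (tri (e + 1)) + 1) * HH Q P + tri (e + 2) * Q.lossT ≤
            B1 e * HH Q P := by
          unfold B1
          linarith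
        have h4 : (d : ℤ) * HH Q P < 2 * ((e : ℤ) + 1) * (d * ht Q P (z 0)) := by
          have h5 : (0 : ℤ) < d := by exact_mod_cast (show 0 < d by omega)
          have h6 := mul_lt_mul_of_pos_left h2 h5
          linarith
        have h7 : 2 * ((e : ℤ) + 1) * (d * ht Q P (z 0)) ≤
            2 * ((e : ℤ) + 1) * (B1 e * HH Q P) :=
          mul_le_mul_of_nonneg_left (h1.trans h3) (by positivity)
        have h8 : 2 * ((e : ℤ) + 1) * B1 e * HH Q P ≤ d * HH Q P :=
          mul_le_mul_of_nonneg_right hN1 hH.le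
        linarith
      · obtain ⟨i, j, hij, h1, h2⟩ := caseII (Q := Q) hed z hzP hz0 hzi hx
        have h3 : Bc (e + 1) (tri (e + 1)) * HH Q P + tri (e + 1) * Q.lossT ≤
            B2 e * HH Q P := by
          unfold B2
          linarith
        exact ⟨i, j, hij, h1.trans h3, h2.trans h3⟩)
    have hclus : ∀ y ∈ Y, (Ps.filter fun x => R x y).card ≤ d := by
      intro y hy
      by_contra hcon
      push Not at hcon
      have hyPs := hYS hy
      have hy0 := hPs0 y hyPs
      set U : Finset K := (Ps.filter fun x => R x y).image (fun x => x / y) with hU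
      have hUc : d < U.card := by
        rw [hU, Finset.card_image_of_injective]
        · exact hcon
        · intro a b hab
          simp only at hab
          exact (div_left_inj' hy0).mp hab
      obtain ⟨u, hu, hu0⟩ := exists_dd_ne hed U hUc
      have hu2 : ∀ i, y * u i ∈ P ∧ ((d : ℤ) - e) * ht Q P (u i) ≤ B2 e * HH Q P := by
        intro i
        have h1 := hu i
        rw [hU, Finset.mem_image] at h1
        obtain ⟨x, hx, hxu⟩ := h1
        rw [Finset.mem_filter] at hx
        rw [← hxu, mul_div_cancel₀ _ hy0]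
        exact ⟨hPsP x hx.1, hx.2⟩
      have h1 := caseIV (Q := Q) hS y (hPsP y hyPs) hy0 u (fun i => (hu2 i).1) hu0
      have h2 : HH Q P < 2 * ((e : ℤ) + 1) * ht Q P y := (Finset.mem_filter.mp hyPs).2
      have h3 : ((d : ℤ) - e) * ∑ i, ht Q P (u i) ≤ (e + 2) * (B2 e * HH Q P) := by
        rw [Finset.mul_sum]
        refine le_trans (Finset.sum_le_sum fun i _ => (hu2 i).2) ?_
        simp
      have hd0 : (0 : ℤ) < d := by exact_mod_cast (show 0 < d by omega)
      have h4 := mul_lt_mul_of_pos_left h2 (mul_pos hd0 hde)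
      have h5 := mul_le_mul_of_nonneg_left h1 (a := 2 * ((e : ℤ) + 1) * (d - e))
        (mul_nonneg (by positivity) hde.le)
      have h6 := mul_le_mul_of_nonneg_left h3 (a := 2 * ((e : ℤ) + 1) * (d + tri (e + 1)))
        (by positivity)
      have h7 := mul_le_mul_of_nonneg_right hN2 hH.le
      nlinarith
    have hPsc : Ps.card ≤ (e + 1) * d := by
      have h1 : Ps ⊆ Y.biUnion fun y => Ps.filter fun x => R x y := by
        intro x hx
        obtain ⟨y, hy, hxy⟩ := hcov x hx
        rw [Finset.mem_biUnion]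
        exact ⟨y, hy, Finset.mem_filter.mpr ⟨hx, hxy⟩⟩
      calc Ps.card ≤ _ := Finset.card_le_card h1
        _ ≤ Y.card * d := Finset.card_biUnion_le_card_mul _ _ _ hclus
        _ ≤ (e + 1) * d := Nat.mul_le_mul_right d hYc
    have h1 : P.card = (P \ Ps).card + Ps.card := by
      rw [Finset.card_sdiff_add_card_eq_card]
      exact Finset.filter_subset _ _
    omega

end Pool.Agent.W277.UB
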