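import Mathlib
import Pool.Agent.W277.UB.Comb

/-!
# Sets of small total size
-/

namespace Pool.Agent.W277.UB

open Finset Polynomial PlaceData

variable {k K : Type*} [Field k] [Field K] [Algebra k K]
variable {Q : PlaceData k K}

/-- `A` is a union of at most `N` sets on which `R` holds pairwise. -/
def Col {α : Type*} (A : Finset α) (N : ℕ) (R : α → α → Prop) : Prop :=
  ∃ c : α → ℕ, (∀ z ∈ A, c z < N) ∧ ∀ z ∈ A, ∀ z' ∈ A, c z = c z' → R z z'

lemma Col.mono {α : Type*} {A : Finset α} {N : ℕ} {R R' : α → α → Prop} (h : Col A N R)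
    (hR : ∀ z ∈ A, ∀ z' ∈ A, R z z' → R' z z') : Col A N R' := by
  obtain ⟨c, h1, h2⟩ := h
  exact ⟨c, h1, fun z hz z' hz' h => hR z hz z' hz' (h2 z hz z' hz' h)⟩

lemma Col.mono' {α : Type*} {A : Finset α} {N N' : ℕ} {R : α → α → Prop} (h : Col A N R)
    (hN : N ≤ N') : Col A N' R := by
  obtain ⟨c, h1, h2⟩ := h
  exact ⟨c, fun z hz => (h1 z hz).trans_le hN, h2⟩

lemma Col.inter {α : Type*} {A : Finset α} {N N' : ℕ} {R R' : α → α → Prop} (h : Col A N R)
    (h' : Col A N' R') : Col A (N * N') (fun z z' => R z z' ∧ R' z z') := by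
  obtain ⟨c, h1, h2⟩ := h
  obtain ⟨c', h1', h2'⟩ := h'
  refine ⟨fun z => c z * N' + c' z, ?_, ?_⟩
  · intro z hz
    have h3 := h1 z hz
    have h4 := h1' z hz
    calc c z * N' + c' z < c z * N' + N' := by omega
      _ = (c z + 1) * N' := by ring
      _ ≤ N * N' := Nat.mul_le_mul_right _ h3
  · intro z hz z' hz' h
    have h3 := h1' z hz
    have h4 := h1' z' hz'
    have h5 : c z = c z' := by
      have h6 : (c z * N' + c' z) / N' = (c z' * N' + c' z') / N' := congrArg (· / N') h
      have hN : 0 < N' := by omega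
      rwa [Nat.add_comm, Nat.add_mul_div_right _ _ hN, Nat.div_eq_of_lt h3, Nat.add_comm (c z' * N'),
        Nat.add_mul_div_right _ _ hN, Nat.div_eq_of_lt h4, Nat.zero_add, Nat.zero_add] at h6
    have h6 : c' z = c' z' := by
      simp only [h5] at h
      omega
    exact ⟨h2 z hz z' hz' h5, h2' z hz z' hz' h6⟩

/-- An equivalence relation with few classes. -/
lemma col_of_inj {α : Type*} (A : Finset α) (N : ℕ) (R : α → α → Prop)
    (hs : ∀ x y, R x y → R y x) (htr : ∀ x y z, R x y → R y z → R x z) (hr : ∀ x, R x x)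
    (h : ∀ z : Fin (N + 1) → α, Function.Injective z → (∀ i, z i ∈ A) →
      ∃ i j, i ≠ j ∧ R (z i) (z j)) : Col A N R := by
  classical
  obtain ⟨Y, hYA, hY, hcov⟩ := exists_cover A R (fun x _ => hr x) N (by
    intro z hz hzA
    obtain ⟨i, j, hij, h1⟩ := h z hz hzA
    exact ⟨i, j, hij, h1, hs _ _ h1⟩)
  choose! y hy hRy using hcov
  let e := Y.equivFin
  refine ⟨fun z => if h : y z ∈ Y then (e ⟨y z, h⟩ : ℕ) else 0, ?_, ?_⟩
  · intro z hz
    simp only [dif_pos (hy z hz)]
    exact lt_of_lt_of_le (e ⟨y z, hy z hz⟩).2 hY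
  · intro z hz z' hz' h1
    simp only [dif_pos (hy z hz), dif_pos (hy z' hz')] at h1
    have h2 : (⟨y z, hy z hz⟩ : Y) = ⟨y z', hy z' hz'⟩ := e.injective (Fin.ext h1)
    have h3 : y z = y z' := congrArg Subtype.val h2
    exact htr _ _ _ (hRy z hz) (h3 ▸ hs _ _ (hRy z' hz'))

lemma natDegree_f {e d : ℕ} {f : K[X]} (hf : (f - X ^ d).natDegree ≤ e) (hed : e < d) :
    f.natDegree = d ∧ f.Monic := by
  have h1 : f = (f - X ^ d) + X ^ d := by ring
  have h2 : (f - X ^ d).degree < (X ^ d : K[X]).degree := by
    rw [degree_X_pow]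
    refine lt_of_le_of_lt degree_le_natDegree ?_
    exact_mod_cast lt_of_le_of_lt hf hed
  constructor
  · rw [h1, natDegree_add_eq_right_of_degree_lt h2, natDegree_X_pow]
  · rw [h1]
    exact Monic.add_of_right (monic_X_pow d) h2

/-- One refinement step. -/
lemma col_step {e d : ℕ} {f : K[X]} {P : Finset K} (hS : Stab e d f P) (hd : 2 ≤ d) (hed : e < d)
    (v : Q.Pl) (m : ℤ) (hm : 1 ≤ m) (N : ℕ) (h : Col P N fun z z' => Q.G v (-m) (z - z')) :
    Col P (N * d) fun z z' => Q.G v (-(m - 1)) (z - z') := by
  classical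
  obtain ⟨hfd, hfm⟩ := natDegree_f hS.hf hed
  obtain ⟨c, hc1, hc2⟩ := h
  have key : ∀ a : ℕ, Col (P.filter fun z => c (f.eval z) = a) d
      fun z z' => Q.G v (-(m - 1)) (z - z') := by
    intro a
    apply col_of_inj
    · intro x y hxy
      have := G_neg hxy
      rwa [neg_sub x y] at this
    · intro x y z hxy hyz
      have := G_add hxy hyz
      rwa [sub_add_sub_cancel] at this
    · intro x
      rw [sub_self]
      exact G_zero
    · intro z hzi hz
      by_contra hcon
      push Not at hcon
      have hzP : ∀ i, z i ∈ P := fun i => (Finset.mem_filter.mp (hz i)).1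
      have hza : ∀ i, c (f.eval (z i)) = a := fun i => (Finset.mem_filter.mp (hz i)).2
      set F : K[X] := f - C (f.eval (z 0)) with hF
      have hFm : F.Monic := by
        rw [hF]
        apply Monic.sub_of_left hfm
        refine lt_of_le_of_lt degree_C_le ?_
        rw [degree_eq_natDegree hfm.ne_zero, hfd]
        exact_mod_cast (show 0 < d by omega)
      have hFd : F.degree = ((d : ℕ) : WithBot ℕ) := by
        rw [hF, degree_sub_eq_left_of_degree_lt]
        · rw [degree_eq_natDegree hfm.ne_zero, hfd]
        · refine lt_of_le_of_lt degree_C_le ?_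
          rw [degree_eq_natDegree hfm.ne_zero, hfd]
          exact_mod_cast (show 0 < d by omega)
      have hlag := Lagrange.leadingCoeff_eq_sum (s := univ) (v := z) hzi.injOn (P := F) (by
        rw [Finset.card_univ, Fintype.card_fin, hFd]
        norm_cast)
      have hG : Q.G v 1 (1 : K) := by
        have hFl : F.leadingCoeff = 1 := hFm
        rw [← hFl, hlag]
        apply G_sum
        intro i _
        have h1 : Q.G v (-m) (F.eval (z i)) := by
          have h2 := hc2 _ (hS.hP _ (hzP i)) _ (hS.hP _ (hzP 0)) ((hza i).trans (hza 0).symm)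
          simpa [hF] using h2
        intro hne
        have hden : ∏ j ∈ univ.erase i, (z i - z j) ≠ 0 := by
          rw [Finset.prod_ne_zero_iff]
          intro j hj
          rw [sub_ne_zero]
          exact fun h => (Finset.ne_of_mem_erase hj) (hzi h).symm
        have hnum : F.eval (z i) ≠ 0 := by
          intro h
          rw [h, zero_div] at hne
          exact hne rfl
        rw [ord_div hnum hden]
        have h3 := h1 hnum
        have h4 : Q.ord v (∏ j ∈ univ.erase i, (z i - z j)) ≤ -(d * m) := by
          have h5 : ∀ s : Finset (Fin (d + 1)), (∀ j ∈ s, j ≠ i) →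
              Q.ord v (∏ j ∈ s, (z i - z j)) ≤ -(s.card * m) := by
            intro s
            induction s using Finset.induction_on with
            | empty => intro _; simp [ord_one]
            | insert b s hb ih =>
              intro hs
              have hbi : b ≠ i := hs b (mem_insert_self b s)
              have hzb : z i - z b ≠ 0 := by
                rw [sub_ne_zero]
                exact fun h => hbi (hzi h).symm
              have hpr : ∏ j ∈ s, (z i - z j) ≠ 0 := by
                rw [Finset.prod_ne_zero_iff]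
                intro j hj
                rw [sub_ne_zero]
                exact fun h => (hs j (mem_insert_of_mem hj)) (hzi h).symm
              rw [Finset.prod_insert hb, Q.ord_mul v _ _ hzb hpr, Finset.card_insert_of_notMem hb]
              have h6 := ih fun j hj => hs j (mem_insert_of_mem hj)
              have h7 := hcon i b hbi.symm
              have h8 : Q.ord v (z i - z b) < -(m - 1) := by
                by_contra h9
                exact h7 fun _ => not_lt.mp h9
              push_cast
              linarith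
          have h6 := h5 (univ.erase i) fun j hj => Finset.ne_of_mem_erase hj
          rw [Finset.card_erase_of_mem (Finset.mem_univ i), Finset.card_univ, Fintype.card_fin,
            Nat.add_sub_cancel] at h6
          exact h6
        have h5 : (2 : ℤ) * m ≤ d * m := mul_le_mul_of_nonneg_right (by exact_mod_cast hd) (by omega)
        linarith
      have h2 := hG one_ne_zero
      rw [ord_one] at h2
      omega
  choose g hg1 hg2 using key
  refine ⟨fun z => c (f.eval z) * d + g (c (f.eval z)) z, ?_, ?_⟩
  · intro z hz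
    have h3 := hc1 _ (hS.hP z hz)
    have h4 := hg1 (c (f.eval z)) z (Finset.mem_filter.mpr ⟨hz, rfl⟩)
    calc c (f.eval z) * d + g (c (f.eval z)) z < c (f.eval z) * d + d := by omega
      _ = (c (f.eval z) + 1) * d := by ring
      _ ≤ N * d := Nat.mul_le_mul_right _ h3
  · intro z hz z' hz' h
    simp only at h
    have h3 := hg1 (c (f.eval z)) z (Finset.mem_filter.mpr ⟨hz, rfl⟩)
    have h4 := hg1 (c (f.eval z')) z' (Finset.mem_filter.mpr ⟨hz', rfl⟩)
    have hd0 : 0 < d := by omega
    have h5 : c (f.eval z) = c (f.eval z') := by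
      have h6 : (c (f.eval z) * d + g (c (f.eval z)) z) / d =
        (c (f.eval z') * d + g (c (f.eval z')) z') / d := congrArg (· / d) h
      rwa [Nat.add_comm, Nat.add_mul_div_right _ _ hd0, Nat.div_eq_of_lt h3,
        Nat.add_comm (c (f.eval z') * d),
        Nat.add_mul_div_right _ _ hd0, Nat.div_eq_of_lt h4, Nat.zero_add, Nat.zero_add] at h6
    rw [← h5] at h
    exact hg2 (c (f.eval z)) z (Finset.mem_filter.mpr ⟨hz, rfl⟩) z'
      (Finset.mem_filter.mpr ⟨hz', h5.symm⟩) (by omega)

/-- At one place, `P` splits into few classes with integral differences. -/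
lemma col_place {e d : ℕ} {f : K[X]} {P : Finset K} (hS : Stab e d f P) (hd : 2 ≤ d) (hed : e < d)
    (v : Q.Pl) : Col P (d ^ (qq Q P v).toNat) fun z z' => Q.G v 0 (z - z') := by
  have key : ∀ M : ℕ, (M : ℤ) ≤ qq Q P v →
      Col P (d ^ M) fun z z' => Q.G v (-(qq Q P v - M)) (z - z') := by
    intro M
    induction M with
    | zero =>
      intro _
      refine ⟨fun _ => 0, fun _ _ => by simp, fun z hz z' hz' _ => ?_⟩
      simp only [Nat.cast_zero, sub_zero]
      exact G_sub (G_of_pole_le (pole_le_qq hz v)) (G_of_pole_le (pole_le_qq hz' v))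
    | succ M ih =>
      intro hM
      push_cast at hM
      have h1 := col_step hS hd hed v (qq Q P v - M) (by linarith) _ (ih (by linarith))
      rw [← pow_succ] at h1
      refine h1.mono fun z _ z' _ h => ?_
      refine G_mono h (le_of_eq ?_)
      push_cast
      ring
  have h1 := key (qq Q P v).toNat (by rw [Int.toNat_of_nonneg (qq_nonneg P v)])
  rw [Int.toNat_of_nonneg (qq_nonneg P v), sub_self, neg_zero] at h1
  exact h1

/-- `P` splits into few classes with constant differences. -/
lemma col_const {e d : ℕ} {f : K[X]} {P : Finset K} (hS : Stab e d f P) (hd : 2 ≤ d) (hed : e < d)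
    (Q : PlaceData k K) :
    Col P (d ^ (HH Q P).toNat) fun z z' => ∃ c : k, algebraMap k K c = z - z' := by
  classical
  have key : ∀ s : Finset Q.Pl, Col P (d ^ (∑ v ∈ s, qq Q P v).toNat)
      fun z z' => ∀ v ∈ s, Q.G v 0 (z - z') := by
    intro s
    induction s using Finset.induction_on with
    | empty =>
      refine ⟨fun _ => 0, fun _ _ => by simp, fun z hz z' hz' _ => ?_⟩
      simp
    | insert a s ha ih =>
      have h1 := (col_place hS hd hed a).inter ih
      rw [← pow_add] at h1
      rw [Finset.sum_insert ha, Int.toNat_add (qq_nonneg P a)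
        (Finset.sum_nonneg fun v _ => qq_nonneg P v)]
      refine h1.mono fun z _ z' _ h v hv => ?_
      rcases Finset.mem_insert.mp hv with rfl | hv
      · exact h.1
      · exact h.2 v hv
  have h1 := key (supp Q P)
  have h2 : ∑ v ∈ supp Q P, qq Q P v ≤ HH Q P := by
    unfold HH
    refine Finset.sum_le_sum fun v _ => ?_
    have := mul_le_mul_of_nonneg_right (Q.wt_one v) (qq_nonneg P v)
    linarith
  refine (h1.mono' (Nat.pow_le_pow_right (by omega) (Int.toNat_le_toNat h2))).mono ?_
  intro z hz z' hz' h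
  by_cases h0 : z - z' = 0
  · exact ⟨0, by rw [map_zero, h0]⟩
  · apply Q.const _ h0
    intro v
    by_cases hv : v ∈ supp Q P
    · exact h v hv h0
    · have hq := qq_of_notMem hv
      have h3 : Q.G v 0 (z - z') := by
        have h4 := G_sub (G_of_pole_le (pole_le_qq hz v)) (G_of_pole_le (pole_le_qq hz' v))
        rwa [hq, neg_zero] at h4
      exact h3 h0

/-- Few points if the total size is small. -/
theorem card_le_small [CharZero k] {e d : ℕ} {f : K[X]} {P : Finset K} (hS : Stab e d f P)
    (hd : 2 ≤ d) (hed : e + 1 < d) (Q : PlaceData k K)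
    (hf : ¬ ∃ g : k[X], g.map (algebraMap k K) = f) :
    P.card ≤ d ^ (2 * (HH Q P).toNat + 1) := by
  classical
  obtain ⟨hfd, hfm⟩ := natDegree_f hS.hf (show e < d by omega)
  obtain ⟨c, hc1, hc2⟩ := col_const hS hd (show e < d by omega) Q
  set N := d ^ (HH Q P).toNat with hN
  by_contra hcon
  push Not at hcon
  have hcard : (Finset.range N ×ˢ Finset.range N).card * d < P.card := by
    rw [Finset.card_product, Finset.card_range]
    refine lt_of_le_of_lt (le_of_eq ?_) hcon
    rw [hN]
    ring
  obtain ⟨⟨a, b⟩, -, hab⟩ := Finset.exists_lt_card_fiber_of_mul_lt_card_of_maps_to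
    (s := P) (t := Finset.range N ×ˢ Finset.range N) (f := fun z => (c z, c (f.eval z))) (by
      intro z hz
      rw [Finset.mem_product, Finset.mem_range, Finset.mem_range]
      exact ⟨hc1 z hz, hc1 _ (hS.hP z hz)⟩) hcard
  set A := P.filter fun z => (c z, c (f.eval z)) = (a, b) with hA
  have hAne : A.Nonempty := Finset.card_pos.mp (by omega)
  obtain ⟨z0, hz0⟩ := hAne
  have hAP : ∀ z ∈ A, z ∈ P := fun z hz => (Finset.mem_filter.mp hz).1
  have hAc : ∀ z ∈ A, c z = a ∧ c (f.eval z) = b := by
    intro z hz
    have h := (Finset.mem_filter.mp hz).2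
    exact ⟨congrArg Prod.fst h, congrArg Prod.snd h⟩
  have hdiff : ∀ z ∈ A, ∃ t : k, algebraMap k K t = z - z0 := fun z hz =>
    hc2 z (hAP z hz) z0 (hAP z0 hz0) ((hAc z hz).1.trans (hAc z0 hz0).1.symm)
  have hdiff' : ∀ z ∈ A, ∃ t : k, algebraMap k K t = f.eval z - f.eval z0 := fun z hz =>
    hc2 _ (hS.hP z (hAP z hz)) _ (hS.hP z0 (hAP z0 hz0)) ((hAc z hz).2.trans (hAc z0 hz0).2.symm)
  -- the translated polynomial
  set w0 := f.eval z0 with hw0
  set F : K[X] := f.comp (X + C z0) - C w0 with hF
  have hFd : F.natDegree ≤ d := by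
    rw [hF]
    refine (natDegree_sub_le _ _).trans (max_le ?_ ?_)
    · refine natDegree_comp_le.trans ?_
      rw [hfd, natDegree_X_add_C, mul_one]
    · rw [natDegree_C]
      exact Nat.zero_le _
  obtain ⟨h, hh⟩ := const_poly (k := k) hFd (P := A.image fun z => z - z0) (by
    intro y hy
    obtain ⟨z, hz, rfl⟩ := Finset.mem_image.mp hy
    exact hdiff z hz) (by
    intro y hy
    obtain ⟨z, hz, rfl⟩ := Finset.mem_image.mp hy
    have h1 : F.eval (z - z0) = f.eval z - w0 := by
      simp [hF, eval_comp]
    rw [h1]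
    exact hdiff' z hz) (by
    rw [Finset.card_image_of_injective]
    · exact hab
    · intro x y hxy
      simpa using hxy)
  -- the subleading coefficient
  have hco : F.coeff (d - 1) = d * z0 := by
    have h1 : f = (f - X ^ d) + X ^ d := by ring
    have h2 : F = (f - X ^ d).comp (X + C z0) + ((X + C z0) ^ d - C w0) := by
      rw [hF]
      conv_lhs => rw [h1]
      rw [add_comp, X_pow_comp]
      ring
    rw [h2, coeff_add, coeff_sub, coeff_C_of_ne_zero (by omega), sub_zero]
    have h3 : ((f - X ^ d).comp (X + C z0)).coeff (d - 1) = 0 := by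
      apply coeff_eq_zero_of_natDegree_lt
      refine lt_of_le_of_lt natDegree_comp_le ?_
      rw [natDegree_X_add_C, mul_one]
      exact lt_of_le_of_lt hS.hf (by omega)
    rw [h3, zero_add, coeff_X_add_C_pow]
    have h4 : d - (d - 1) = 1 := by omega
    have h5 : d.choose (d - 1) = d := by
      have h6 := Nat.choose_symm (n := d) (k := 1) (by omega)
      rwa [Nat.choose_one_right] at h6
    rw [h4, h5, pow_one]
    ring
  have hz0c : ∃ t : k, algebraMap k K t = z0 := by
    refine ⟨h.coeff (d - 1) / d, ?_⟩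
    have h1 : algebraMap k K (h.coeff (d - 1)) = d * z0 := by
      rw [← coeff_map, hh, hco]
    have h2 : (d : k) ≠ 0 := by
      rw [Nat.cast_ne_zero]
      omega
    have h3 : (d : K) ≠ 0 := by
      rw [← map_natCast (algebraMap k K)]
      exact (_root_.map_ne_zero _).mpr h2
    rw [map_div₀, h1, map_natCast]
    field_simp
  obtain ⟨t0, ht0⟩ := hz0c
  have hfF : (h.comp (X - C t0)).map (algebraMap k K) = f - C w0 := by
    rw [map_comp, hh, Polynomial.map_sub, map_X, map_C, ht0, hF, sub_comp, C_comp, comp_assoc]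
    simp
  have hw0c : ¬ ∃ t : k, algebraMap k K t = w0 := by
    rintro ⟨t, ht⟩
    apply hf
    refine ⟨h.comp (X - C t0) + C t, ?_⟩
    rw [Polynomial.map_add, hfF, map_C, ht]
    ring
  have hw00 : w0 ≠ 0 := by
    intro h0
    exact hw0c ⟨0, by rw [map_zero, h0]⟩
  obtain ⟨v, hv⟩ : ∃ v, Q.ord v w0 < 0 := by
    by_contra hcon2
    push Not at hcon2
    exact hw0c (Q.const w0 hw00 hcon2)
  have hw0P : w0 ∈ P := hS.hP z0 (hAP z0 hz0)
  have hq1 : 1 ≤ qq Q P v := by
    have h1 := pole_le_qq hw0P v
    rw [pole_of_ne hw00] at h1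
    have := le_max_right 0 (- Q.ord v w0)
    omega
  obtain ⟨p, hp, hp0, hpo⟩ := exists_qq (show 0 < qq Q P v by omega)
  set q := qq Q P v with hq
  -- the lower order terms
  set g : k[X] := h.comp (X - C t0) with hg
  have hlow : p ^ d = f.eval p - w0 - ((g.map (algebraMap k K)) - X ^ d).eval p := by
    rw [hfF]
    simp
  have hlowG : Q.G v (-((d - 1) * q)) (((g.map (algebraMap k K)) - X ^ d).eval p) := by
    have h1 : ((g.map (algebraMap k K)) - X ^ d).natDegree < d := by
      rw [hfF]
      have h2 : (f - C w0 - X ^ d) = (f - X ^ d) - C w0 := by ring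
      rw [h2]
      refine lt_of_le_of_lt (natDegree_sub_le _ _) (max_lt ?_ ?_)
      · exact lt_of_le_of_lt hS.hf (by omega)
      · rw [natDegree_C]
        omega
    have h2 : (g.map (algebraMap k K)) - X ^ d = (g - X ^ d).map (algebraMap k K) := by
      simp
    rw [eval_eq_sum_range' h1]
    apply G_sum
    intro j hj
    have hj' : j < d := Finset.mem_range.mp hj
    rw [h2, coeff_map]
    have h3 := G_mul (G_alg (Q := Q) (v := v) ((g - X ^ d).coeff j))
      (G_pow (G_self (Q := Q) (v := v) (x := p)) j)
    refine G_mono h3 ?_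
    rw [hpo, zero_add]
    have h4 : (j : ℤ) ≤ d - 1 := by omega
    nlinarith
  have hpd : Q.G v (-((d - 1) * q)) (p ^ d) := by
    rw [hlow]
    have h2d : (2 : ℤ) ≤ d := by exact_mod_cast hd
    apply G_sub _ hlowG
    apply G_sub
    · refine G_mono (G_of_pole_le (pole_le_qq (hS.hP p hp) v)) ?_
      rw [← hq]
      nlinarith
    · refine G_mono (G_of_pole_le (pole_le_qq hw0P v)) ?_
      rw [← hq]
      nlinarith
  have h1 := hpd (pow_ne_zero d hp0)
  rw [ord_pow hp0, hpo] at h1
  nlinarith

end Pool.Agent.W277.UB
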