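import Mathlib
import Pool.Agent.W277.UB.Small

/-!
# The bound for finite stable sets
-/

namespace Pool.Agent.W277.UB

open Finset Polynomial PlaceData

lemma numeric (e d : ℕ) (h : (e + 2) ^ 5 ≤ d) :
    2 ≤ d ∧ e + 1 < d ∧ 2 * ((e : ℤ) + 1) * B1 e ≤ d ∧
    2 * ((e : ℤ) + 1) * ((d + tri (e + 1)) * ((e + 2) * B2 e) + (d - e)) ≤ d * (d - e) ∧
    2 * ((e : ℤ) + 1) + tri e < d := by
  have h' : ((e : ℤ) + 2) ^ 5 ≤ d := by exact_mod_cast h
  have he : (0 : ℤ) ≤ e := Int.natCast_nonneg e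
  have t0 := two_tri e
  have t1 := two_tri (e + 1)
  have t2 := two_tri (e + 2)
  push_cast at t1 t2
  have hb1 : 2 * B1 e = (e + 1) * (e + 2) * (e + 3) + 4 := by
    unfold B1 Bc
    push_cast
    linear_combination (e + 2) * t1 + 3 * t2
  have hb2 : 2 * B2 e = e * (e + 1) * (e + 4) + 2 := by
    unfold B2 Bc
    push_cast
    linear_combination (e + 4) * t1
  have hexp : ((e : ℤ) + 2) ^ 5 = e ^ 5 + 10 * e ^ 4 + 40 * e ^ 3 + 80 * e ^ 2 + 80 * e + 32 := by
    ring
  have he2 : (0 : ℤ) ≤ (e : ℤ) ^ 2 := by positivity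
  have he3 : (0 : ℤ) ≤ (e : ℤ) ^ 3 := by positivity
  have he4 : (0 : ℤ) ≤ (e : ℤ) ^ 4 := by positivity
  have he5 : (0 : ℤ) ≤ (e : ℤ) ^ 5 := by positivity
  refine ⟨?_, ?_, ?_, ?_, ?_⟩
  · zify
    linarith
  · zify
    linarith
  · have h1 : 2 * ((e : ℤ) + 1) * B1 e = (e + 1) * ((e + 1) * (e + 2) * (e + 3) + 4) := by
      rw [← hb1]
      ring
    rw [h1]
    nlinarith
  · -- multiply by 2
    set D : ℤ := (d : ℤ) with hD
    set T : ℤ := (e + 1) * (e + 2) * (e * (e + 1) * (e + 4) + 2) with hT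
    have hT0 : 0 ≤ T := by positivity
    have h1 : 2 * ((e : ℤ) + 1) * ((D + tri (e + 1)) * ((e + 2) * B2 e) + (D - e)) =
        (D + tri (e + 1)) * T + 2 * (e + 1) * (D - e) := by
      rw [hT, ← hb2]
      ring
    have h2 : 2 * (tri (e + 1) * T) = (e + 1) * e * T := by
      linear_combination T * t1
    have hTe : T = e ^ 5 + 8 * e ^ 4 + 21 * e ^ 3 + 24 * e ^ 2 + 14 * e + 4 - 0 := by
      rw [hT]
      ring
    have h3 : T + (3 * e + 2) + (e + 1) * e ≤ D := by
      rw [hTe]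
      nlinarith
    have h4 : T ≤ D := by nlinarith
    have hD0 : 0 ≤ D := by positivity
    have h5 : (e + 1) * e * T ≤ (e + 1) * e * D := mul_le_mul_of_nonneg_left h4 (by positivity)
    have h6 : (T + (3 * e + 2) + (e + 1) * e) * D ≤ D * D := mul_le_mul_of_nonneg_right h3 hD0
    rw [h1]
    nlinarith
  · nlinarith

variable {k K : Type*} [Field k] [Field K] [Algebra k K]

/-- The bound depending only on `e`, `d` and the loss. -/
theorem card_le_all [CharZero k] {e d : ℕ} {f : K[X]} {P : Finset K} (hS : Stab e d f P)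
    (hed : (e + 2) ^ 5 ≤ d) (Q : PlaceData k K)
    (hf : ¬ ∃ g : k[X], g.map (algebraMap k K) = f) :
    P.card ≤ max ((e + 1) * d + e) (d ^ (2 * (tri (e + 2) * Q.lossT).toNat + 1)) := by
  obtain ⟨n1, n2, n3, n4, n5⟩ := numeric e d hed
  rcases eq_or_lt_of_le (HH_nonneg (Q := Q) P) with hH | hH
  · have h1 := card_le_small hS n1 n2 Q hf
    rw [← hH] at h1
    simp only [Int.toNat_zero, mul_zero, zero_add, pow_one] at h1
    refine h1.trans (le_max_of_le_left ?_)
    have : d ≤ (e + 1) * d := Nat.le_mul_of_pos_left d (by omega)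
    omega
  · rcases le_total (tri (e + 2) * Q.lossT) (HH Q P) with hΛ | hΛ
    · exact (card_le_large hS n1 (by omega) n3 n4 n5 hH hΛ).trans (le_max_left _ _)
    · refine (card_le_small hS n1 n2 Q hf).trans (le_max_of_le_right ?_)
      apply Nat.pow_le_pow_right (by omega)
      have := Int.toNat_le_toNat hΛ
      omega

/-- The preperiodic points in `K` of a polynomial `f` : the points with finite forward orbit. -/
def PrePer (f : K[X]) : Set K := {z | {w | ∃ n : ℕ, (fun x => f.eval x)^[n] z = w}.Finite}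

/-- Finite sets of preperiodic points are contained in finite stable sets. -/
lemma exists_stab (f : K[X]) (T : Finset K) (hT : ∀ z ∈ T, z ∈ PrePer f) :
    ∃ P : Finset K, T ⊆ P ∧ ∀ z ∈ P, f.eval z ∈ P := by
  classical
  have h1 : (⋃ z ∈ T, {w | ∃ n : ℕ, (fun x => f.eval x)^[n] z = w}).Finite :=
    T.finite_toSet.biUnion fun z hz => hT z hz
  refine ⟨h1.toFinset, ?_, ?_⟩
  · intro z hz
    rw [Set.Finite.mem_toFinset, Set.mem_iUnion₂]
    exact ⟨z, hz, 0, rfl⟩
  · intro w hw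
    rw [Set.Finite.mem_toFinset, Set.mem_iUnion₂] at hw ⊢
    obtain ⟨z, hz, n, rfl⟩ := hw
    exact ⟨z, hz, n + 1, by rw [Function.iterate_succ_apply']⟩

/-- Uniform boundedness for gap polynomials, given place data. -/
theorem prePer_le [CharZero k] {e d : ℕ} {f : K[X]} (hf' : (f - X ^ d).natDegree ≤ e)
    (hed : (e + 2) ^ 5 ≤ d) (Q : PlaceData k K)
    (hf : ¬ ∃ g : k[X], g.map (algebraMap k K) = f) :
    (PrePer f).encard ≤
      ((max ((e + 1) * d + e) (d ^ (2 * (tri (e + 2) * Q.lossT).toNat + 1)) : ℕ) : ℕ∞) := by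
  classical
  by_contra hcon
  push Not at hcon
  obtain ⟨T, hTs, hT⟩ := Set.exists_subset_encard_eq (Order.add_one_le_of_lt hcon)
  have hTf : T.Finite := by
    apply Set.finite_of_encard_eq_coe (k := max ((e + 1) * d + e)
      (d ^ (2 * (tri (e + 2) * Q.lossT).toNat + 1)) + 1)
    rw [hT]
    norm_cast
  lift T to Finset K using hTf
  obtain ⟨P, hTP, hP⟩ := exists_stab f T fun z hz => hTs (by simpa using hz)
  have h1 := card_le_all ⟨hf', hP⟩ hed Q hf
  have h2 := Finset.card_le_card hTP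
  rw [Set.encard_coe_eq_coe_finsetCard] at hT
  have h3 : T.card = max ((e + 1) * d + e) (d ^ (2 * (tri (e + 2) * Q.lossT).toNat + 1)) + 1 := by
    exact_mod_cast hT
  omega

end Pool.Agent.W277.UB
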