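import Mathlib
import Pool.Agent.W277.UB.Chart

/-!
# The norm formula
-/

namespace Pool.Agent.W277.UB

open IsDedekindDomain HeightOneSpectrum WithZero

section Norm

variable {R F S K : Type*} [CommRing R] [IsDomain R] [IsPrincipalIdealRing R] [Field F]
  [Algebra R F] [IsFractionRing R F] [CommRing S] [IsDedekindDomain S] [Field K] [Algebra S K]
  [IsFractionRing S K] [Algebra R S] [Module.Finite R S] [Module.IsTorsionFree R S] [Algebra F K]
  [Algebra R K] [IsScalarTower R F K] [IsScalarTower R S K] [FiniteDimensional F K]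

open Submodule.IsPrincipal in
/-- The weight of an ideal. -/
noncomputable def wtI (R : Type*) {F S : Type*} [CommRing R] [IsDomain R]
    [IsPrincipalIdealRing R] [Field F]
    [Algebra R F] [CommRing S] [IsDedekindDomain S]
    [Algebra R S] [Module.Finite R S] [Module.IsTorsionFree R S] (l : F → ℤ) (I : Ideal S) : ℤ :=
  l (algebraMap R F (generator (Ideal.relNorm R I)))

/-- An additive function on a field, vanishing on the units of `R`. -/
structure AddFn (R : Type*) {F : Type*} [CommRing R] [Field F] [Algebra R F] (l : F → ℤ) :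
    Prop where
  mul : ∀ x y, x ≠ 0 → y ≠ 0 → l (x * y) = l x + l y
  unit : ∀ u : R, IsUnit u → l (algebraMap R F u) = 0

open Submodule.IsPrincipal in
omit [IsFractionRing R F] in
lemma wtI_mul [FaithfulSMul R F] {l : F → ℤ} (hl : AddFn R l) (I J : Ideal S) (hI : I ≠ ⊥)
    (hJ : J ≠ ⊥) : wtI R l (I * J) = wtI R l I + wtI R l J := by
  unfold wtI
  have hinj := FaithfulSMul.algebraMap_injective R F
  have hgI : generator (Ideal.relNorm R I) ≠ 0 := by
    rw [Ne, ← Submodule.IsPrincipal.eq_bot_iff_generator_eq_zero, Ideal.relNorm_eq_bot_iff]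
    exact hI
  have hgJ : generator (Ideal.relNorm R J) ≠ 0 := by
    rw [Ne, ← Submodule.IsPrincipal.eq_bot_iff_generator_eq_zero, Ideal.relNorm_eq_bot_iff]
    exact hJ
  have h1 : Associated (generator (Ideal.relNorm R (I * J)))
      (generator (Ideal.relNorm R I) * generator (Ideal.relNorm R J)) := by
    rw [← Ideal.span_singleton_eq_span_singleton, ← Ideal.span_singleton_mul_span_singleton,
      Ideal.span_singleton_generator, Ideal.span_singleton_generator,
      Ideal.span_singleton_generator, map_mul]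
  obtain ⟨u, hu⟩ := h1
  have h2 : l (algebraMap R F (generator (Ideal.relNorm R (I * J)) * u)) =
      l (algebraMap R F (generator (Ideal.relNorm R (I * J)))) + 0 := by
    rw [map_mul, hl.mul, hl.unit _ u.isUnit]
    · intro h
      have h3 := (map_eq_zero_iff _ hinj).mp h
      rw [h3, zero_mul] at hu
      exact mul_ne_zero hgI hgJ hu.symm
    · rw [Ne, map_eq_zero_iff _ hinj]
      exact u.ne_zero
  rw [hu, map_mul, hl.mul _ _ (by rwa [Ne, map_eq_zero_iff _ hinj])
    (by rwa [Ne, map_eq_zero_iff _ hinj]), add_zero] at h2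
  exact h2.symm

omit [IsFractionRing R F] in
lemma wtI_top [FaithfulSMul R F] {l : F → ℤ} (hl : AddFn R l) : wtI R l (⊤ : Ideal S) = 0 := by
  have h := wtI_mul (R := R) (S := S) hl ⊤ ⊤ top_ne_bot top_ne_bot
  rw [Ideal.top_mul] at h
  linarith

omit [IsFractionRing R F] in
lemma wtI_pow [FaithfulSMul R F] {l : F → ℤ} (hl : AddFn R l) (I : Ideal S) (hI : I ≠ ⊥) (n : ℕ) :
    wtI R l (I ^ n) = n * wtI R l I := by
  induction n with
  | zero => rw [pow_zero, Ideal.one_eq_top, wtI_top hl]; simp
  | succ n ih =>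
    rw [pow_succ, wtI_mul hl _ _ (pow_ne_zero n hI) hI, ih]
    push_cast
    ring

omit [IsFractionRing R F] in
lemma wtI_prod [FaithfulSMul R F] {l : F → ℤ} (hl : AddFn R l) {ι : Type*} (T : Finset ι)
    (I : ι → Ideal S) (hI : ∀ i ∈ T, I i ≠ ⊥) :
    wtI R l (∏ i ∈ T, I i) = ∑ i ∈ T, wtI R l (I i) := by
  classical
  induction T using Finset.induction_on with
  | empty => rw [Finset.prod_empty, Finset.sum_empty, Ideal.one_eq_top, wtI_top hl]
  | insert a s ha ih =>
    rw [Finset.prod_insert ha, Finset.sum_insert ha, wtI_mul hl _ _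
      (hI a (Finset.mem_insert_self a s)), ih fun i hi => hI i (Finset.mem_insert_of_mem hi)]
    rw [Ne, ← Ideal.zero_eq_bot, Finset.prod_eq_zero_iff]
    rintro ⟨i, hi, h⟩
    exact hI i (Finset.mem_insert_of_mem hi) h

open Submodule.IsPrincipal in
/-- The norm formula for integral elements. -/
lemma sum_ordP_alg {l : F → ℤ} (hl : AddFn R l) (s : S) (hs : s ≠ 0)
    (T : Finset (HeightOneSpectrum S)) (hT : ∀ P, P ∉ T → ordP P (algebraMap S K s) = 0) :
    ∑ P ∈ T, wtI R l P.asIdeal * ordP P (algebraMap S K s) =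
      l (Algebra.norm F (algebraMap S K s)) := by
  classical
  have hinj : Function.Injective (algebraMap R F) := FaithfulSMul.algebraMap_injective R F
  have hspan : (Ideal.span {s} : Ideal S) ≠ 0 := by
    rw [Ideal.zero_eq_bot]
    simpa using hs
  have h1 : wtI R l (Ideal.span {s} : Ideal S) = l (Algebra.norm F (algebraMap S K s)) := by
    unfold wtI
    have h2 : Associated (generator (Ideal.relNorm R (Ideal.span {s})))
        (Algebra.intNorm R S s) := by
      rw [← Ideal.span_singleton_eq_span_singleton, Ideal.span_singleton_generator,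
        Ideal.relNorm_singleton]
    obtain ⟨u, hu⟩ := h2
    have hn0 : Algebra.norm F (algebraMap S K s) ≠ 0 := by
      rw [Algebra.norm_ne_zero_iff]
      simpa using hs
    rw [← Algebra.algebraMap_intNorm (A := R) (K := F) (L := K) (B := S) s, ← hu, map_mul] at hn0 ⊢
    rw [hl.mul _ _ (left_ne_zero_of_mul hn0) (right_ne_zero_of_mul hn0), hl.unit _ u.isUnit,
      add_zero]
  rw [← h1]
  have h3 : (Ideal.span {s} : Ideal S) = ∏ P ∈ T, P.maxPowDividing (Ideal.span {s}) := by
    conv_lhs => rw [← Ideal.finprod_heightOneSpectrum_factorization hspan]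
    apply finprod_eq_prod_of_mulSupport_subset
    intro P hP
    rw [Function.mem_mulSupport] at hP
    by_contra hPT
    apply hP
    have h4 := hT P hPT
    rw [ordP_eq_count P hs] at h4
    unfold maxPowDividing
    have h5 : (Associates.mk P.asIdeal).count (Associates.mk (Ideal.span {s})).factors = 0 := by
      exact_mod_cast h4
    rw [h5, pow_zero]
  rw [h3, wtI_prod hl]
  · refine Finset.sum_congr rfl fun P _ => ?_
    unfold maxPowDividing
    rw [wtI_pow hl _ P.ne_bot, ordP_eq_count P hs]
    ring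
  · intro P _
    unfold maxPowDividing
    exact pow_ne_zero _ P.ne_bot

/-- The norm formula. -/
lemma sum_ordP {l : F → ℤ} (hl : AddFn R l) (x : K) (hx : x ≠ 0)
    (T : Finset (HeightOneSpectrum S)) (hT : ∀ P, P ∉ T → ordP P x = 0) :
    ∑ P ∈ T, wtI R l P.asIdeal * ordP P x = l (Algebra.norm F x) := by
  classical
  obtain ⟨a, b, ha, hb, rfl⟩ := exists_frac (S := S) x hx
  have ha' : algebraMap S K a ≠ 0 := by simpa using ha
  have hb' : algebraMap S K b ≠ 0 := by simpa using hb
  set T' := T ∪ ((finite_ordP_alg (K := K) a ha).toFinset ∪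
    (finite_ordP_alg (K := K) b hb).toFinset) with hT'
  have h1 : ∑ P ∈ T, wtI R l P.asIdeal * ordP P (algebraMap S K a / algebraMap S K b) =
      ∑ P ∈ T', wtI R l P.asIdeal * ordP P (algebraMap S K a / algebraMap S K b) := by
    apply Finset.sum_subset Finset.subset_union_left
    intro P _ hP
    rw [hT P hP, mul_zero]
  have h2 := sum_ordP_alg (R := R) (F := F) (K := K) hl a ha T' (by
    intro P hP
    by_contra h
    exact hP (by simp [hT', h]))
  have h3 := sum_ordP_alg (R := R) (F := F) (K := K) hl b hb T' (by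
    intro P hP
    by_contra h
    exact hP (by simp [hT', h]))
  have hna : Algebra.norm F (algebraMap S K a) ≠ 0 := Algebra.norm_ne_zero_iff.mpr ha'
  have hnb : Algebra.norm F (algebraMap S K b) ≠ 0 := Algebra.norm_ne_zero_iff.mpr hb'
  have hnab : Algebra.norm F (algebraMap S K a / algebraMap S K b) ≠ 0 :=
    Algebra.norm_ne_zero_iff.mpr hx
  have h4 : l (Algebra.norm F (algebraMap S K a)) =
      l (Algebra.norm F (algebraMap S K a / algebraMap S K b)) +
        l (Algebra.norm F (algebraMap S K b)) := by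
    rw [← hl.mul _ _ hnab hnb, ← map_mul, div_mul_cancel₀ _ hb']
  have h5 : ∑ P ∈ T', wtI R l P.asIdeal * ordP P (algebraMap S K a / algebraMap S K b) =
      ∑ P ∈ T', wtI R l P.asIdeal * ordP P (algebraMap S K a) -
        ∑ P ∈ T', wtI R l P.asIdeal * ordP P (algebraMap S K b) := by
    rw [← Finset.sum_sub_distrib]
    refine Finset.sum_congr rfl fun P _ => ?_
    rw [ordP_div P ha' hb']
    ring
  rw [h1, h5, h2, h3]
  linarith

open Submodule.IsPrincipal in
omit [IsFractionRing R F] in
lemma wtI_pos {l : F → ℤ}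
    (hpos : ∀ r : R, r ≠ 0 → ¬ IsUnit r → 1 ≤ l (algebraMap R F r)) (P : HeightOneSpectrum S) :
    1 ≤ wtI R l P.asIdeal := by
  unfold wtI
  apply hpos
  · rw [Ne, ← Submodule.IsPrincipal.eq_bot_iff_generator_eq_zero, Ideal.relNorm_eq_bot_iff]
    exact P.ne_bot
  · intro hu
    have h1 : Ideal.relNorm R P.asIdeal = ⊤ := by
      rw [← Ideal.span_singleton_generator (Ideal.relNorm R P.asIdeal)]
      exact Ideal.span_singleton_eq_top.mpr hu
    have h2 := Ideal.relNorm_le_comap R P.asIdeal
    rw [h1, top_le_iff, Ideal.comap_eq_top_iff] at h2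
    exact P.isPrime.ne_top h2

end Norm

end Pool.Agent.W277.UB
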