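import Mathlib
import Pool.Agent.W277.UB.Chart2

/-!
# Chart data
-/

namespace Pool.Agent.W277.UB

open IsDedekindDomain HeightOneSpectrum WithZero

universe w

/-- The valuations of `K` above a principal ideal domain `R` with fraction field `F`. -/
structure ChartData (R F K : Type*) [CommRing R] [Field F] [Algebra R F] [Field K] [Algebra F K]
    (l : F → ℤ) (D : Derivation ℤ K K) where
  Pl : Type w
  ord : Pl → K → ℤ
  wt : Pl → ℤ
  wt_one : ∀ v, 1 ≤ wt v
  ord_mul : ∀ v x y, x ≠ 0 → y ≠ 0 → ord v (x * y) = ord v x + ord v y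
  ord_add : ∀ v x y (m : ℤ), x ≠ 0 → y ≠ 0 → x + y ≠ 0 → m ≤ ord v x → m ≤ ord v y →
    m ≤ ord v (x + y)
  ord_unit : ∀ v (u : R), IsUnit u → ord v (algebraMap F K (algebraMap R F u)) = 0
  fin : ∀ x, x ≠ 0 → {v | ord v x ≠ 0}.Finite
  sum : ∀ x, x ≠ 0 → ∀ T : Finset Pl, (∀ v, v ∉ T → ord v x = 0) →
    ∑ v ∈ T, wt v * ord v x = l (Algebra.norm F x)
  integral : ∀ x, x ≠ 0 → (∀ v, 0 ≤ ord v x) → ∀ n, ∃ r : R, algebraMap R F r = (minpoly F x).coeff n
  dl : Pl → ℤ
  dl_nonneg : ∀ v, 0 ≤ dl v
  dl_fin : {v | dl v ≠ 0}.Finite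
  deriv : ∀ v x, x ≠ 0 → D x ≠ 0 → ord v x - 1 - dl v ≤ ord v (D x) ∧
    (0 ≤ ord v x → - dl v ≤ ord v (D x))

/-- Existence of chart data. -/
lemma exists_chartData (R F : Type*) (K : Type w) [CommRing R] [IsDomain R]
    [IsPrincipalIdealRing R] [Field F] [Algebra R F] [IsFractionRing R F] [Field K] [Algebra F K]
    [FiniteDimensional F K] [Algebra.IsSeparable F K] (l : F → ℤ) (D : Derivation ℤ K K)
    (hl : AddFn R l) (hpos : ∀ r : R, r ≠ 0 → ¬ IsUnit r → 1 ≤ l (algebraMap R F r))
    (hR : ∀ r : R, ∃ r' : R, algebraMap F K (algebraMap R F r') =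
      D (algebraMap F K (algebraMap R F r))) :
    Nonempty (ChartData.{w} R F K l D) := by
  letI : Algebra R K := ((algebraMap F K).comp (algebraMap R F)).toAlgebra
  haveI : IsScalarTower R F K := IsScalarTower.of_algebraMap_eq' rfl
  let S := integralClosure R K
  haveI : IsFractionRing S K := IsIntegralClosure.isFractionRing_of_finite_extension R F K S
  haveI : IsDedekindDomain S := IsIntegralClosure.isDedekindDomain R F K S
  haveI : Module.Finite R S := IsIntegralClosure.finite R F K S
  have hinjRK : Function.Injective (algebraMap R K) :=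
    (algebraMap F K).injective.comp (IsFractionRing.injective R F)
  have hinjRS : Function.Injective (algebraMap R S) := by
    intro a b hab
    apply hinjRK
    rw [IsScalarTower.algebraMap_apply R S K, IsScalarTower.algebraMap_apply R S K, hab]
  haveI : FaithfulSMul R S := (faithfulSMul_iff_algebraMap_injective R S).mpr hinjRS
  haveI : Module.IsTorsionFree R S := inferInstance
  obtain ⟨δ, hδ0, hδ⟩ := exists_denom (S := S) (K := K) R D (by
    intro r
    obtain ⟨r', hr'⟩ := hR r
    refine ⟨algebraMap R S r', ?_⟩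
    rw [← IsScalarTower.algebraMap_apply R S K]
    exact hr')
  have hδ0' : algebraMap S K δ ≠ 0 := by
    rw [Ne, map_eq_zero_iff _ (IsFractionRing.injective S K)]
    exact hδ0
  exact ⟨{
    Pl := HeightOneSpectrum S
    ord := fun P x => ordP P x
    wt := fun P => wtI R l P.asIdeal
    wt_one := fun P => wtI_pos hpos P
    ord_mul := fun P x y hx hy => ordP_mul P hx hy
    ord_add := fun P x y m hx hy hxy h1 h2 => ordP_add P m hx hy hxy h1 h2
    ord_unit := by
      intro P u hu
      have h1 := ordP_unit (K := K) P (hu.map (algebraMap R S)).unit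
      rw [IsUnit.unit_spec, ← IsScalarTower.algebraMap_apply R S K] at h1
      exact h1
    fin := fun x hx => finite_ordP x hx
    sum := fun x hx T hT => sum_ordP hl x hx T hT
    integral := by
      intro x hx h n
      obtain ⟨s, hs⟩ := exists_of_ordP_nonneg (S := S) x hx h
      have h1 : IsIntegral R x := by
        rw [← hs]
        exact s.2
      have h2 := minpoly.isIntegrallyClosed_eq_field_fractions' F h1
      refine ⟨(minpoly R x).coeff n, ?_⟩
      rw [h2, Polynomial.coeff_map]
    dl := fun P => ordP P (algebraMap S K δ)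
    dl_nonneg := fun P => ordP_alg_nonneg P hδ0
    dl_fin := finite_ordP _ hδ0'
    deriv := fun P x hx hD => ordP_D D δ hδ0 hδ P x hx hD }⟩

end Pool.Agent.W277.UB
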