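import Mathlib
import Pool.Agent.W277.UB.Chart3
import Pool.Agent.W277.UB.Rat
import Pool.Agent.W277.UB.Bound

/-!
# Place data of a general function field
-/

namespace Pool.Agent.W277.UB

open Polynomial

universe w

section Inf

variable (k : Type*) [Field k]

open Classical in
/-- The valuation ring at infinity. -/
noncomputable abbrev InfRing : ValuationSubring (RatFunc k) :=
  (RatFunc.inftyValuation k).valuationSubring

open Classical in
lemma mem_infRing {x : RatFunc k} : x ∈ InfRing k ↔ x = 0 ∨ x.intDegree ≤ 0 := by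
  rw [Valuation.mem_valuationSubring_iff]
  by_cases hx : x = 0
  · simp [hx]
  · rw [RatFunc.inftyValuation_apply, RatFunc.inftyValuation_of_nonzero k hx]
    rw [← WithZero.exp_zero, WithZero.exp_le_exp]
    simp [hx]

instance : IsPrincipalIdealRing (InfRing k) := by
  classical
  infer_instance

lemma intDegree_unit (u : InfRing k) (hu : IsUnit u) : (u : RatFunc k).intDegree = 0 := by
  obtain ⟨u, rfl⟩ := hu
  have h0 : ((u : InfRing k) : RatFunc k) ≠ 0 := by
    simp
  have h1 : (((u⁻¹ : (InfRing k)ˣ) : InfRing k) : RatFunc k) ≠ 0 := by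
    simp
  have h2 : ((u : InfRing k) : RatFunc k) * (((u⁻¹ : (InfRing k)ˣ) : InfRing k) : RatFunc k) = 1 := by
    rw [← MulMemClass.coe_mul, Units.mul_inv]
    rfl
  have h3 := (mem_infRing k).mp (u : InfRing k).2
  have h4 := (mem_infRing k).mp ((u⁻¹ : (InfRing k)ˣ) : InfRing k).2
  rw [or_iff_right h0] at h3
  rw [or_iff_right h1] at h4
  have h5 := RatFunc.intDegree_mul h0 h1
  rw [h2, RatFunc.intDegree_one] at h5
  linarith

lemma addFn_inf : AddFn (InfRing k) (fun x : RatFunc k => - x.intDegree) where
  mul := by
    intro x y hx hy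
    simp only [RatFunc.intDegree_mul hx hy]
    ring
  unit := by
    intro u hu
    have := intDegree_unit k u hu
    simp only [ValuationSubring.algebraMap_apply, this, neg_zero]

lemma pos_inf (r : InfRing k) (hr : r ≠ 0) (hu : ¬ IsUnit r) :
    1 ≤ - (algebraMap (InfRing k) (RatFunc k) r).intDegree := by
  have h0 : (r : RatFunc k) ≠ 0 := by simpa using hr
  have h1 := (mem_infRing k).mp r.2
  rw [or_iff_right h0] at h1
  rw [ValuationSubring.algebraMap_apply]
  by_contra hcon
  have h2 : (r : RatFunc k).intDegree = 0 := by omega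
  apply hu
  have h3 : ((r : RatFunc k))⁻¹ ∈ InfRing k := by
    rw [mem_infRing]
    right
    rw [RatFunc.intDegree_inv, h2, neg_zero]
  refine IsUnit.of_mul_eq_one ⟨_, h3⟩ ?_
  apply Subtype.ext
  rw [MulMemClass.coe_mul]
  exact mul_inv_cancel₀ h0

lemma ratD_inf (r : InfRing k) : ratD k r ∈ InfRing k := by
  rw [mem_infRing]
  by_cases h : ratD k r = 0
  · left
    exact h
  · right
    have h0 : (r : RatFunc k) ≠ 0 := by
      intro h1
      apply h
      rw [h1]
      have := (ratDer k).map_zero
      exact this
    have h1 := (mem_infRing k).mp r.2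
    rw [or_iff_right h0] at h1
    have h2 := ratD_ord_inf (r : RatFunc k) h0 h
    linarith

lemma addFn_poly : AddFn k[X] (fun x : RatFunc k => x.intDegree) where
  mul := fun x y hx hy => RatFunc.intDegree_mul hx hy
  unit := by
    intro u hu
    simp only [RatFunc.intDegree_polynomial]
    have := natDegree_eq_zero_of_isUnit hu
    exact_mod_cast this

lemma pos_poly (r : k[X]) (hr : r ≠ 0) (hu : ¬ IsUnit r) :
    1 ≤ (algebraMap k[X] (RatFunc k) r).intDegree := by
  rw [RatFunc.intDegree_polynomial]
  have h1 : r.natDegree ≠ 0 := by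
    intro h
    apply hu
    obtain ⟨c, rfl⟩ := natDegree_eq_zero.mp h
    exact isUnit_C.mpr (isUnit_iff_ne_zero.mpr (by simpa using hr))
  omega

lemma isUnit_inf (c : k) (hc : c ≠ 0) : ∃ u : InfRing k, IsUnit u ∧
    (u : RatFunc k) = algebraMap k (RatFunc k) c := by
  have h1 : ∀ c : k, algebraMap k (RatFunc k) c ∈ InfRing k := by
    intro c
    rw [mem_infRing]
    right
    have : algebraMap k (RatFunc k) c = RatFunc.C c := rfl
    rw [this, RatFunc.intDegree_C]
  refine ⟨⟨_, h1 c⟩, ?_, rfl⟩
  refine IsUnit.of_mul_eq_one ⟨_, h1 c⁻¹⟩ ?_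
  apply Subtype.ext
  rw [MulMemClass.coe_mul]
  simp only [← map_mul, mul_inv_cancel₀ hc, map_one]
  rfl

/-- Polynomials which are integral at infinity are constant. -/
lemma const_of_both (x : RatFunc k) (h1 : ∃ p : k[X], algebraMap k[X] (RatFunc k) p = x)
    (h2 : x ∈ InfRing k) : ∃ c : k, algebraMap k (RatFunc k) c = x := by
  obtain ⟨p, rfl⟩ := h1
  rw [mem_infRing] at h2
  have h3 : p.natDegree = 0 := by
    rcases h2 with h2 | h2
    · have : p = 0 := (map_eq_zero_iff _ (RatFunc.algebraMap_injective k)).mp h2
      rw [this, natDegree_zero]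
    · rw [RatFunc.intDegree_polynomial] at h2
      omega
  obtain ⟨c, rfl⟩ := natDegree_eq_zero.mp h3
  exact ⟨c, by rw [RatFunc.algebraMap_C]; rfl⟩

end Inf

section Gen

variable (k : Type*) (K : Type w) [Field k] [CharZero k] [Field K] [Algebra k K]
  [Algebra (RatFunc k) K] [IsScalarTower k (RatFunc k) K] [FiniteDimensional (RatFunc k) K]

omit [CharZero k] in
/-- The differential structure of `k(t)`. -/
@[reducible]
noncomputable def ratDiff : Differential (RatFunc k) where
  deriv := @Derivation.mk ℤ (RatFunc k) (RatFunc k) _ _ _ (Ring.toIntAlgebra _) _ _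
      (ratDer k).toLinearMap.toAddMonoidHom.toIntLinearMap (ratDer k).map_one_eq_zero
      (fun a b => ratD_mul a b)

omit [CharZero k] [FiniteDimensional (RatFunc k) K] in
lemma alg_of_coeff (x : K) (hint : IsIntegral (RatFunc k) x)
    (h : ∀ n, ∃ c : k, algebraMap k (RatFunc k) c = (minpoly (RatFunc k) x).coeff n) :
    IsAlgebraic k x := by
  have h1 : minpoly (RatFunc k) x ∈ lifts (algebraMap k (RatFunc k)) := by
    rw [lifts_iff_coeff_lifts]
    intro n
    obtain ⟨c, hc⟩ := h n
    exact ⟨c, hc⟩
  obtain ⟨q, hq⟩ := h1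
  have hq' : q.map (algebraMap k (RatFunc k)) = minpoly (RatFunc k) x := hq
  refine ⟨q, ?_, ?_⟩
  · rintro rfl
    rw [Polynomial.map_zero] at hq'
    exact (minpoly.ne_zero hint) hq'.symm
  · rw [← aeval_map_algebraMap (RatFunc k), hq']
    exact minpoly.aeval _ _

/-- The derivation `d/dt` extends to `K`. -/
lemma exists_deriv : ∃ D : Derivation k K K,
    (∀ x : RatFunc k, D (algebraMap (RatFunc k) K x) = algebraMap (RatFunc k) K (ratD k x)) ∧
    ∀ x, D x = 0 → IsAlgebraic k x := by
  have : CharZero (RatFunc k) := charZero_of_injective_algebraMap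
    (algebraMap k (RatFunc k)).injective
  letI : Differential (RatFunc k) := ratDiff k
  letI : Differential K := Differential.differentialFiniteDimensional (RatFunc k) K
  have : DifferentialAlgebra (RatFunc k) K :=
    Differential.differentialAlgebraFiniteDimensional
  set d : Derivation ℤ K K := Differential.deriv with hd
  have h1 : ∀ x : RatFunc k, d (algebraMap (RatFunc k) K x) =
      algebraMap (RatFunc k) K (ratD k x) := by
    intro x
    exact DifferentialAlgebra.deriv_algebraMap (A := RatFunc k) (B := K) x
  have h2 : ∀ c : k, d (algebraMap k K c) = 0 := by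
    intro c
    rw [IsScalarTower.algebraMap_apply k (RatFunc k) K, h1, ← ratDer_apply,
      Derivation.map_algebraMap, map_zero]
  refine ⟨{ toFun := d
            map_add' := map_add d
            map_smul' := ?_
            map_one_eq_zero' := d.map_one_eq_zero
            leibniz' := d.leibniz }, h1, ?_⟩
  · intro c x
    rw [Algebra.smul_def, d.leibniz, h2]
    simp [Algebra.smul_def]
  · intro x hx
    have hx' : d x = 0 := hx
    set p := minpoly (RatFunc k) x with hp
    have hint : IsIntegral (RatFunc k) x := Algebra.IsIntegral.isIntegral x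
    have hpm : p.Monic := minpoly.monic hint
    have h3 := Differential.deriv_aeval_eq x p
    have h4 : aeval x p = 0 := minpoly.aeval _ _
    rw [h4] at h3
    have h6 : aeval x (Differential.mapCoeffs p) = 0 := by
      have h7 : d (0 : K) = aeval x (Differential.mapCoeffs p) + aeval x (derivative p) * d x := h3
      rw [hx', mul_zero, add_zero, map_zero] at h7
      exact h7.symm
    have hco : ∀ n, (Differential.mapCoeffs p).coeff n = ratD k (p.coeff n) := fun n => rfl
    have h7 : Differential.mapCoeffs p = 0 := by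
      by_contra hne
      have h8 := minpoly.degree_le_of_ne_zero (RatFunc k) x hne h6
      have h9 : (Differential.mapCoeffs p).degree < p.degree := by
        rw [degree_eq_natDegree hpm.ne_zero, degree_lt_iff_coeff_zero]
        intro m hm
        rw [hco]
        rcases eq_or_lt_of_le hm with h | h
        · rw [← h, coeff_natDegree, hpm.leadingCoeff]
          exact (ratDer k).map_one_eq_zero
        · rw [coeff_eq_zero_of_natDegree_lt h]
          exact (ratDer k).map_zero
      exact absurd h8 (not_le.mpr h9)
    apply alg_of_coeff k K x hint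
    intro n
    apply ratD_ker
    rw [← hco, h7, coeff_zero]

/-- Place data for a function field in which `k` is algebraically closed. -/
theorem exists_placeData (halg : ∀ x : K, IsAlgebraic k x → ∃ c : k, algebraMap k K c = x) :
    Nonempty (PlaceData.{w} k K) := by
  classical
  have : CharZero (RatFunc k) := charZero_of_injective_algebraMap
    (algebraMap k (RatFunc k)).injective
  obtain ⟨D, hD, hDker⟩ := exists_deriv k K
  set d : Derivation ℤ K K := D.restrictScalars ℤ with hd
  have hdD : ∀ x, d x = D x := fun _ => rfl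
  obtain ⟨c1⟩ := exists_chartData k[X] (RatFunc k) K (fun x => x.intDegree) d (addFn_poly k)
    (pos_poly k) (by
      intro r
      refine ⟨derivative r, ?_⟩
      rw [hdD, hD, ratD_alg])
  obtain ⟨c2⟩ := exists_chartData (InfRing k) (RatFunc k) K (fun x => -x.intDegree) d (addFn_inf k)
    (pos_inf k) (by
      intro r
      refine ⟨⟨_, ratD_inf k r⟩, ?_⟩
      rw [hdD, hD]
      rfl)
  have hconst : ∀ x : K, x ≠ 0 → (∀ v, 0 ≤ c1.ord v x) → (∀ v, 0 ≤ c2.ord v x) →
      ∃ c : k, algebraMap k K c = x := by
    intro x hx h1 h2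
    apply halg
    apply alg_of_coeff k K x (Algebra.IsIntegral.isIntegral x)
    intro n
    apply const_of_both k
    · exact c1.integral x hx h1 n
    · obtain ⟨r, hr⟩ := c2.integral x hx h2 n
      rw [← hr]
      exact r.2
  have hiter : ∀ x : K, ∀ j : ℕ, (D^[j + 1]) x ≠ 0 → (D^[j]) x ≠ 0 := by
    intro x j h h1
    rw [Function.iterate_succ_apply', h1, map_zero] at h
    exact h rfl
  -- iterated estimates at a single place
  have hit : ∀ (ord : K → ℤ) (l : ℤ), 0 ≤ l →
      (∀ x, x ≠ 0 → d x ≠ 0 → ord x - 1 - l ≤ ord (d x) ∧ (0 ≤ ord x → - l ≤ ord (d x))) →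
      (∀ x (j : ℕ) (m : ℤ), x ≠ 0 → (D^[j]) x ≠ 0 → m ≤ ord x →
        m - j - j * (2 * l) ≤ ord ((D^[j]) x)) ∧
      (∀ x (j : ℕ), x ≠ 0 → (D^[j]) x ≠ 0 → 0 ≤ ord x → - j * (2 * l) ≤ ord ((D^[j]) x)) := by
    intro ord l hl hst
    have hA : ∀ x (j : ℕ) (m : ℤ), x ≠ 0 → (D^[j]) x ≠ 0 → m ≤ ord x →
        m - j - j * l ≤ ord ((D^[j]) x) := by
      intro x j m hx
      induction j with
      | zero => intro _ h; simpa using h
      | succ j ih =>
        intro h1 h2
        have h3 := hiter x j h1
        have h4 := ih h3 h2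
        rw [Function.iterate_succ_apply'] at h1 ⊢
        have h5 := (hst _ h3 h1).1
        rw [hdD] at h5
        push_cast
        linarith
    refine ⟨?_, ?_⟩
    · intro x j m hx h1 h2
      have h3 := hA x j m hx h1 h2
      have h4 : (0 : ℤ) ≤ j * l := by positivity
      linarith
    · intro x j hx h1 h2
      rcases eq_or_lt_of_le hl with h0 | h0
      · subst h0
        have h3 : ∀ j : ℕ, (D^[j]) x ≠ 0 → 0 ≤ ord ((D^[j]) x) := by
          intro j
          induction j with
          | zero => intro _; simpa using h2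
          | succ j ih =>
            intro h1
            have h3 := hiter x j h1
            have h4 := ih h3
            rw [Function.iterate_succ_apply'] at h1 ⊢
            have h5 := (hst _ h3 h1).2 h4
            rw [hdD, neg_zero] at h5
            exact h5
        simpa using h3 j h1
      · have h3 := hA x j 0 hx h1 h2
        have h4 : (j : ℤ) * 1 ≤ j * l := mul_le_mul_of_nonneg_left h0 (Int.natCast_nonneg j)
        linarith
  have hdl1 := fun v => hit (c1.ord v) (c1.dl v) (c1.dl_nonneg v) (c1.deriv v)
  have hdl2 := fun v => hit (c2.ord v) (c2.dl v) (c2.dl_nonneg v) (c2.deriv v)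
  let ord : c1.Pl ⊕ c2.Pl → K → ℤ := Sum.elim c1.ord c2.ord
  let wt : c1.Pl ⊕ c2.Pl → ℤ := Sum.elim c1.wt c2.wt
  let loss : c1.Pl ⊕ c2.Pl → ℤ := Sum.elim (fun v => 2 * c1.dl v) (fun v => 2 * c2.dl v)
  let lossS : Finset (c1.Pl ⊕ c2.Pl) := c1.dl_fin.toFinset.disjSum c2.dl_fin.toFinset
  have hwt1 : ∀ v, 1 ≤ wt v := by
    rintro (v | v)
    · exact c1.wt_one v
    · exact c2.wt_one v
  exact ⟨{
    Pl := c1.Pl ⊕ c2.Pl
    ord := ord
    wt := wt
    wt_nonneg := fun v => zero_le_one.trans (hwt1 v)
    wt_one := hwt1
    ord_mul := by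
      rintro (v | v) x y hx hy
      · exact c1.ord_mul v x y hx hy
      · exact c2.ord_mul v x y hx hy
    ord_add := by
      rintro (v | v) x y m hx hy hxy h1 h2
      · exact c1.ord_add v x y m hx hy hxy h1 h2
      · exact c2.ord_add v x y m hx hy hxy h1 h2
    ord_alg := by
      rintro (v | v) c hc
      · have h1 := c1.ord_unit v (C c) (isUnit_C.mpr (isUnit_iff_ne_zero.mpr hc))
        rw [IsScalarTower.algebraMap_apply k (RatFunc k) K]
        rw [RatFunc.algebraMap_C] at h1
        exact h1
      · obtain ⟨u, hu, hu'⟩ := isUnit_inf k c hc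
        have h1 := c2.ord_unit v u hu
        rw [ValuationSubring.algebraMap_apply, hu', ← IsScalarTower.algebraMap_apply] at h1
        exact h1
    fin := by
      intro x hx
      have h1 : {v | ord v x ≠ 0} ⊆
          Sum.inl '' {v | c1.ord v x ≠ 0} ∪ Sum.inr '' {v | c2.ord v x ≠ 0} := by
        rintro (v | v) hv
        · left
          exact ⟨v, hv, rfl⟩
        · right
          exact ⟨v, hv, rfl⟩
      exact (((c1.fin x hx).image _).union ((c2.fin x hx).image _)).subset h1
    prod_formula := by
      intro x hx S hS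
      set T1 := S.toLeft ∪ (c1.fin x hx).toFinset with hT1
      set T2 := S.toRight ∪ (c2.fin x hx).toFinset with hT2
      have h1 := c1.sum x hx T1 (by
        intro v hv
        by_contra h
        exact hv (by simp [hT1, h]))
      have h2 := c2.sum x hx T2 (by
        intro v hv
        by_contra h
        exact hv (by simp [hT2, h]))
      have h3 : ∑ v ∈ T1.disjSum T2, wt v * ord v x = 0 := by
        rw [Finset.sum_disjSum]
        have h4 : ∑ v ∈ T1, wt (Sum.inl v) * ord (Sum.inl v) x = ∑ v ∈ T1, c1.wt v * c1.ord v x :=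
          rfl
        have h5 : ∑ v ∈ T2, wt (Sum.inr v) * ord (Sum.inr v) x = ∑ v ∈ T2, c2.wt v * c2.ord v x :=
          rfl
        rw [h4, h5, h1, h2]
        ring
      have hST : S ⊆ T1.disjSum T2 := by
        rintro (v | v) hv
        · rw [Finset.inl_mem_disjSum]
          simp [hT1, hv]
        · rw [Finset.inr_mem_disjSum]
          simp [hT2, hv]
      rw [← Finset.sum_sdiff hST] at h3
      have h6 : 0 ≤ ∑ v ∈ T1.disjSum T2 \ S, wt v * ord v x :=
        Finset.sum_nonneg fun v hv => mul_nonneg (zero_le_one.trans (hwt1 v))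
          (hS v (Finset.mem_sdiff.mp hv).2)
      linarith
    const := by
      intro x hx h
      exact hconst x hx (fun v => h (Sum.inl v)) (fun v => h (Sum.inr v))
    D := D
    D_ker := fun x hx => halg x (hDker x hx)
    loss := loss
    loss_nonneg := by
      rintro (v | v)
      · have := c1.dl_nonneg v
        simp only [loss, Sum.elim_inl]
        linarith
      · have := c2.dl_nonneg v
        simp only [loss, Sum.elim_inr]
        linarith
    lossS := lossS
    loss_supp := by
      rintro (v | v) hv
      · simp only [lossS, Finset.inl_mem_disjSum, Set.Finite.mem_toFinset, Set.mem_ofPred_eq,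
          not_not] at hv
        simp [loss, hv]
      · simp only [lossS, Finset.inr_mem_disjSum, Set.Finite.mem_toFinset, Set.mem_ofPred_eq,
          not_not] at hv
        simp [loss, hv]
    lossT := ∑ v ∈ lossS, wt v * loss v
    loss_sum := le_rfl
    D_ord := by
      rintro (v | v) x j m hx h1 h2
      · exact (hdl1 v).1 x j m hx h1 h2
      · exact (hdl2 v).1 x j m hx h1 h2
    D_ord' := by
      rintro (v | v) x j hx h1 h2
      · exact (hdl1 v).2 x j hx h1 h2
      · exact (hdl2 v).2 x j hx h1 h2 }⟩

end Gen

end Pool.Agent.W277.UB
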