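import Mathlib
import Pool.Agent.W277.UB.Gen

/-!
# Final theorems: general function fields of characteristic zero
-/

namespace Pool.Agent.W277.UB

open Polynomial IntermediateField

universe w

/-- Function fields (as in the frozen statement) have place data. -/
theorem exists_placeData_ff (k : Type*) (K : Type w) [Field k] [CharZero k] [Field K] [Algebra k K]
    (hFG : (⊤ : IntermediateField k K).FG)
    (hx : ∃ x : K, Transcendental k x ∧ Algebra.IsAlgebraic (IntermediateField.adjoin k {x}) K) :
    Nonempty (PlaceData.{w} (algebraicClosure k K) K) := by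
  classical
  obtain ⟨x, hxt, hxa⟩ := hx
  set E := algebraicClosure k K with hE
  have hxt' : Transcendental E x := hxt.algebraicClosure
  have hinj : Function.Injective (aeval x : E[X] →ₐ[E] K) := by
    rw [← transcendental_iff_injective]
    exact hxt'
  let φ : RatFunc E →+* K := IsFractionRing.lift (g := (aeval x : E[X] →ₐ[E] K).toRingHom) hinj
  have hφ : ∀ p : E[X], φ (algebraMap E[X] (RatFunc E) p) = aeval x p := fun p =>
    IsFractionRing.lift_algebraMap _ p
  letI : Algebra (RatFunc E) K := φ.toAlgebra
  have hφ' : ∀ y, algebraMap (RatFunc E) K y = φ y := fun _ => rfl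
  have : IsScalarTower E (RatFunc E) K := by
    apply IsScalarTower.of_algebraMap_eq
    intro c
    rw [hφ']
    have h1 : algebraMap E (RatFunc E) c = algebraMap E[X] (RatFunc E) (C c) := by
      rw [RatFunc.algebraMap_C]
      rfl
    rw [h1, hφ, aeval_C]
  -- the range contains `k(x)`
  have hrange : ∀ y ∈ IntermediateField.adjoin k {x}, ∃ r : RatFunc E, φ r = y := by
    have h1 : IntermediateField.adjoin k {x} ≤
        ({ carrier := Set.range φ
           mul_mem' := by
            rintro _ _ ⟨a, rfl⟩ ⟨b, rfl⟩
            exact ⟨a * b, map_mul _ _ _⟩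
           add_mem' := by
            rintro _ _ ⟨a, rfl⟩ ⟨b, rfl⟩
            exact ⟨a + b, map_add _ _ _⟩
           algebraMap_mem' := by
            intro c
            refine ⟨algebraMap E[X] (RatFunc E) (C (algebraMap k E c)), ?_⟩
            rw [hφ, aeval_C]
            rfl
           inv_mem' := by
            rintro _ ⟨a, rfl⟩
            exact ⟨a⁻¹, map_inv₀ _ _⟩ } : IntermediateField k K) := by
      rw [IntermediateField.adjoin_le_iff]
      rintro y hy
      rw [Set.mem_singleton_iff] at hy
      subst hy
      exact ⟨algebraMap E[X] (RatFunc E) X, by rw [hφ, aeval_X]⟩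
    intro y hy
    exact h1 hy
  have hint : ∀ z : K, IsIntegral (RatFunc E) z := by
    intro z
    obtain ⟨p, hp0, hp⟩ := hxa.isAlgebraic z
    have h1 : p.map (algebraMap (IntermediateField.adjoin k {x}) K) ∈
        lifts (algebraMap (RatFunc E) K) := by
      rw [lifts_iff_coeff_lifts]
      intro n
      rw [coeff_map]
      obtain ⟨r, hr⟩ := hrange _ (p.coeff n).2
      exact ⟨r, hr⟩
    obtain ⟨q, hq⟩ := h1
    have hq' : q.map (algebraMap (RatFunc E) K) =
      p.map (algebraMap (IntermediateField.adjoin k {x}) K) := hq
    rw [← isAlgebraic_iff_isIntegral]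
    refine ⟨q, ?_, ?_⟩
    · rintro rfl
      rw [Polynomial.map_zero] at hq'
      exact hp0 ((Polynomial.map_eq_zero _).mp hq'.symm)
    · rw [← eval_map_algebraMap, hq', eval_map_algebraMap]
      exact hp
  have : FiniteDimensional (RatFunc E) K := by
    obtain ⟨T, hT⟩ := hFG
    have h1 : IntermediateField.adjoin (RatFunc E) (T : Set K) = ⊤ := by
      rw [eq_top_iff]
      intro z _
      have h2 : z ∈ IntermediateField.adjoin k (T : Set K) := by
        rw [hT]
        trivial
      have h3 : IntermediateField.adjoin k (T : Set K) ≤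
          ({ (IntermediateField.adjoin (RatFunc E) (T : Set K)).toSubfield with
              algebraMap_mem' := by
                intro c
                have h4 : algebraMap k K c = algebraMap (RatFunc E) K
                    (algebraMap E[X] (RatFunc E) (C (algebraMap k E c))) := by
                  rw [hφ', hφ, aeval_C]
                  rfl
                rw [h4]
                exact (IntermediateField.adjoin (RatFunc E) (T : Set K)).algebraMap_mem _ } :
            IntermediateField k K) := by
        rw [IntermediateField.adjoin_le_iff]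
        intro y hy
        exact IntermediateField.subset_adjoin (RatFunc E) (T : Set K) hy
      exact h3 h2
    have h2 : FiniteDimensional (RatFunc E) (IntermediateField.adjoin (RatFunc E) (T : Set K)) :=
      IntermediateField.finiteDimensional_adjoin fun z _ => hint z
    rw [h1] at h2
    exact Module.Finite.equiv (IntermediateField.topEquiv (F := RatFunc E) (E := K)).toLinearEquiv
  apply exists_placeData E K
  intro y hy
  have h1 : IsAlgebraic k y := by
    exact hy.restrictScalars k
  exact ⟨⟨y, h1.isIntegral⟩, rfl⟩

/-- Uniform boundedness for gap polynomials over function fields of characteristic zero. -/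
theorem ubp_ff (k : Type*) (K : Type w) [Field k] [CharZero k] [Field K] [Algebra k K]
    (hFG : (⊤ : IntermediateField k K).FG)
    (hx : ∃ x : K, Transcendental k x ∧ Algebra.IsAlgebraic (IntermediateField.adjoin k {x}) K) :
    ∃ c : ℕ, ∀ e d : ℕ, (e + 2) ^ 5 ≤ d → ∀ f : K[X], (f - X ^ d).natDegree ≤ e →
      (∃ n, ¬ IsAlgebraic k (f.coeff n)) →
      (PrePer f).encard ≤ ((max ((e + 1) * d + e) (d ^ ((e + 1) * (e + 2) * c + 1)) : ℕ) : ℕ∞) := by
  obtain ⟨Q⟩ := exists_placeData_ff k K hFG hx
  have : CharZero (algebraicClosure k K) := charZero_of_injective_algebraMap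
    (algebraMap k (algebraicClosure k K)).injective
  refine ⟨Q.lossT.toNat, fun e d hed f hf hf' => ?_⟩
  have h := prePer_le hf hed Q (by
    rintro ⟨g, hg⟩
    obtain ⟨n, hn⟩ := hf'
    apply hn
    rw [← hg, coeff_map]
    exact mem_algebraicClosure_iff.mp (g.coeff n).2)
  have h1 : 2 * (tri (e + 2) * Q.lossT).toNat = (e + 1) * (e + 2) * Q.lossT.toNat := by
    have h2 := two_tri (e + 2)
    have h3 := lossT_nonneg (Q := Q)
    have h4 := tri_nonneg (e + 2)
    zify
    rw [Int.toNat_of_nonneg (mul_nonneg h4 h3), Int.toNat_of_nonneg h3, ← mul_assoc, h2]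
    push_cast
    ring
  rwa [h1] at h

end Pool.Agent.W277.UB
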