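import Mathlib
import Pool.Agent.W277.UB.Rat
import Pool.Agent.W277.UB.Bound

/-!
# Final theorem: rational function fields
-/

namespace Pool.Agent.W277.UB

open Polynomial

/-- Uniform boundedness for gap polynomials over `k(t)`, with an explicit bound. -/
theorem ubp_rat (k : Type*) [Field k] [CharZero k] (e d : ℕ) (hed : (e + 2) ^ 5 ≤ d)
    (f : (RatFunc k)[X]) (hf : (f - X ^ d).natDegree ≤ e)
    (hf' : ∃ n, f.coeff n ∉ (algebraMap k (RatFunc k)).range) :
    (PrePer f).encard ≤ (((e + 1) * d + e : ℕ) : ℕ∞) := by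
  classical
  let L := AlgebraicClosure k
  have : CharZero L := charZero_of_injective_algebraMap (algebraMap k L).injective
  have hinj : Function.Injective ((algebraMap L[X] (RatFunc L)).comp
      (mapRingHom (algebraMap k L))) :=
    (RatFunc.algebraMap_injective L).comp (map_injective _ (algebraMap k L).injective)
  let φ : RatFunc k →+* RatFunc L := IsFractionRing.lift hinj
  have hφ : ∀ p : k[X], φ (algebraMap k[X] (RatFunc k) p) =
      algebraMap L[X] (RatFunc L) (p.map (algebraMap k L)) := fun p =>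
    IsFractionRing.lift_algebraMap hinj p
  have hφD : ∀ x : RatFunc k, φ (ratD k x) = ratD L (φ x) := by
    intro x
    obtain ⟨a, b, hb, rfl⟩ := exists_mk x
    have hb' : b.map (algebraMap k L) ≠ 0 := by
      rwa [Ne, Polynomial.map_eq_zero]
    rw [ratD_mk _ _ hb, map_div₀, map_div₀, hφ, hφ, hφ, hφ, ratD_mk _ _ hb']
    simp only [Polynomial.map_sub, Polynomial.map_mul, Polynomial.map_pow, derivative_map]
  have h1 : ((f.map φ) - X ^ d).natDegree ≤ e := by
    have h2 : (f.map φ) - X ^ d = (f - X ^ d).map φ := by simp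
    rw [h2]
    exact natDegree_map_le.trans hf
  have h2 : ¬ ∃ g : L[X], g.map (algebraMap L (RatFunc L)) = f.map φ := by
    rintro ⟨g, hg⟩
    obtain ⟨n, hn⟩ := hf'
    apply hn
    have h3 : ratD L (φ (f.coeff n)) = 0 := by
      rw [← coeff_map, ← hg, coeff_map, ← ratDer_apply]
      exact (ratDer L).map_algebraMap _
    rw [← hφD] at h3
    have h4 : ratD k (f.coeff n) = 0 := (map_eq_zero_iff φ φ.injective).mp h3
    obtain ⟨c, hc⟩ := ratD_ker _ h4
    exact ⟨c, hc⟩
  have h3 := prePer_le h1 hed (ratPlaces L) h2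
  have h4 : (ratPlaces L).lossT = 0 := rfl
  rw [h4] at h3
  have h5 : max ((e + 1) * d + e) (d ^ (2 * (tri (e + 2) * 0).toNat + 1)) = (e + 1) * d + e := by
    simp only [mul_zero, Int.toNat_zero, zero_add, pow_one]
    apply max_eq_left
    have : d ≤ (e + 1) * d := Nat.le_mul_of_pos_left d (by omega)
    omega
  rw [h5] at h3
  refine le_trans ?_ h3
  rw [← φ.injective.encard_image (PrePer f)]
  apply Set.encard_le_encard
  rintro _ ⟨z, hz, rfl⟩
  have h6 : ∀ n : ℕ, (fun x => (f.map φ).eval x)^[n] (φ z) = φ ((fun x => f.eval x)^[n] z) := by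
    intro n
    induction n with
    | zero => rfl
    | succ n ih => rw [Function.iterate_succ_apply', Function.iterate_succ_apply', ih,
        eval_map_apply]
  unfold PrePer at hz ⊢
  have h7 : {w | ∃ n : ℕ, (fun x => (f.map φ).eval x)^[n] (φ z) = w} ⊆
      φ '' {w | ∃ n : ℕ, (fun x => f.eval x)^[n] z = w} := by
    rintro _ ⟨n, rfl⟩
    exact ⟨_, ⟨n, rfl⟩, (h6 n).symm⟩
  exact (Set.Finite.image φ hz).subset h7

end Pool.Agent.W277.UB
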